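import Pool.Agent.J6H49.IP.Meas
import Pool.Agent.J6H49.OP.Main

/-!
# Interactive proofs with a side oracle of subexponential density
-/

set_option autoImplicit false

namespace Pool.Agent.J6H49.IP

open Pool.Agent.NPC Pool.Agent.H628R3.RO Pool.Agent.J6H49.AM Filter Pool.Agent.J6H49.OP
open MeasureTheory Pool.Agent.J6H54.RO
open Pool.Agent.TH678.GC (join)
open Pool.Agent.TH678.RS (bt)
open Pool.Agent.Y626.WX (Cp exists_cp)
open Pool.Agent.J6H49.PHC (oracle)

theorem two_thirds {t E : ℕ} (h : 2 * E ≤ t) : (2 / 3 : ℝ) ^ t ≤ (1 / 2) ^ E := by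
  calc (2 / 3 : ℝ) ^ t ≤ (2 / 3) ^ (2 * E) :=
        pow_le_pow_of_le_one (by norm_num) (by norm_num) h
    _ = ((2 / 3) ^ 2) ^ E := by rw [← pow_mul]
    _ ≤ (1 / 2) ^ E := pow_le_pow_left₀ (by norm_num) (by norm_num) _

theorem three_quarters {t E : ℕ} (h : 3 * E ≤ t) : (3 / 4 : ℝ) ^ t ≤ (1 / 2) ^ E := by
  calc (3 / 4 : ℝ) ^ t ≤ (3 / 4) ^ (3 * E) :=
        pow_le_pow_of_le_one (by norm_num) (by norm_num) h
    _ = ((3 / 4) ^ 3) ^ E := by rw [← pow_mul]
    _ ≤ (1 / 2) ^ E := pow_le_pow_left₀ (by norm_num) (by norm_num) _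

/-- the length of the questions -/
noncomputable def La (M : Alg) (p : Polynomial ℕ) (n : ℕ) : ℕ :=
  (lb M).eval (il n (p.eval n))

/-- the size of the side tables -/
def De (n : ℕ) : ℕ := 2 ^ (Nat.sqrt n + 1)

theorem bound {M : Alg} {p : Polynomial ℕ} {n : ℕ}
    (h : 64 * (18 * rq M p n + 1) * (2 * n + 2 + (La M p n + 2) * De n) ≤ 2 ^ n) :
    (2 ^ (La M p n + 2)) ^ De n * eps M p n ≤ (1 / 2) ^ n := by
  set K := 18 * rq M p n + 1 with hK
  set E := 2 * n + 2 + (La M p n + 2) * De n with hE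
  have hK1 : 1 ≤ K := by omega
  have hE2 : 2 ≤ E := by omega
  have h1 : 2 * E ≤ 2 ^ n / (32 * K) := by
    rw [Nat.le_div_iff_mul_le (by omega)]
    calc 2 * E * (32 * K) = 64 * K * E := by ring
      _ ≤ 2 ^ n := h
  have h2 : 3 * E ≤ 2 ^ n / 8 := by
    rw [Nat.le_div_iff_mul_le (by norm_num)]
    have : E ≤ K * E := Nat.le_mul_of_pos_left _ hK1
    nlinarith
  have h3 : 32 * K ≤ 2 ^ n := by
    have : K * 2 ≤ K * E := Nat.mul_le_mul_left _ hE2
    nlinarith
  have h3' : (32 : ℝ) * (K : ℝ) ≤ 2 ^ n := by exact_mod_cast h3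
  have h4 : eps M p n ≤ 2 * 2 ^ n * (1 / 2) ^ E := by
    unfold eps
    rw [← hK]
    have h5 := two_thirds h1
    have h6 := three_quarters h2
    have h7 : (0 : ℝ) < (1 / 2) ^ E := by positivity
    have h8 : (1 : ℝ) ≤ 2 ^ n := one_le_pow₀ (by norm_num)
    calc 32 * ((K : ℕ) : ℝ) * (2 / 3) ^ (2 ^ n / (32 * K)) + (3 / 4) ^ (2 ^ n / 8) ≤
        2 ^ n * (1 / 2) ^ E + 1 * (1 / 2) ^ E := by
          refine add_le_add (mul_le_mul h3' h5 (by positivity) (by positivity)) ?_
          rw [one_mul]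
          exact h6
      _ ≤ 2 ^ n * (1 / 2) ^ E + 2 ^ n * (1 / 2) ^ E := by
          have := mul_le_mul_of_nonneg_right h8 h7.le
          linarith
      _ = _ := by ring
  have e0 : ∀ k : ℕ, (2 : ℝ) ^ k * (1 / 2) ^ k = 1 := by
    intro k
    rw [← mul_pow]
    norm_num
  calc (2 ^ (La M p n + 2)) ^ De n * eps M p n ≤
      (2 ^ (La M p n + 2)) ^ De n * (2 * 2 ^ n * (1 / 2) ^ E) :=
        mul_le_mul_of_nonneg_left h4 (by positivity)
    _ = (2 ^ ((La M p n + 2) * De n) * (1 / 2) ^ ((La M p n + 2) * De n)) *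
        (2 ^ n * (1 / 2) ^ n) * (1 / 2) ^ n * (1 / 2) := by
        rw [hE, ← pow_mul, pow_add, pow_add, two_mul n, pow_add]
        ring
    _ = (1 / 2) ^ n * (1 / 2) := by rw [e0, e0]; ring
    _ ≤ (1 / 2) ^ n := by
        have : (0 : ℝ) < (1 / 2) ^ n := by positivity
        linarith

theorem ev_sizes (M : Alg) (p : Polynomial ℕ) : ∀ᶠ n : ℕ in atTop,
    64 * (18 * rq M p n + 1) * (2 * n + 2 + (La M p n + 2) * De n) ≤ 2 ^ n := by
  set I : Polynomial ℕ := 2 * Polynomial.X + 1 + (2 * p + 1 + p * (2 * p + 1)) with hI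
  have hIe : ∀ n, I.eval n = il n (p.eval n) := by
    intro n
    simp only [hI, il, Polynomial.eval_add, Polynomial.eval_mul, Polynomial.eval_ofNat,
      Polynomial.eval_X, Polynomial.eval_one]
  set Q : Polynomial ℕ := 64 * (18 * ((p + 1) * M.p.comp I) + 1) *
    (2 * Polynomial.X + 2 + ((lb M).comp I + 2)) with hQ
  have hQe : ∀ n, Q.eval n = 64 * (18 * rq M p n + 1) * (2 * n + 2 + (La M p n + 2)) := by
    intro n
    simp only [hQ, rq, La, Polynomial.eval_add, Polynomial.eval_mul, Polynomial.eval_ofNat,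
      Polynomial.eval_comp, Polynomial.eval_X, Polynomial.eval_one, hIe]
  obtain ⟨N, hN⟩ := poly_le_two_pow (Q ^ 2)
  filter_upwards [eventually_ge_atTop N, eventually_ge_atTop 9] with n hn h9
  have h1 := hN n hn
  rw [Polynomial.eval_pow] at h1
  have h2 : Q.eval n ^ 2 ≤ 2 ^ n := by omega
  have h3 : 3 ≤ Nat.sqrt n := by
    rw [Nat.le_sqrt]
    omega
  have h4 : Nat.sqrt n * Nat.sqrt n ≤ n := Nat.sqrt_le n
  have h5 : De n ^ 2 ≤ 2 ^ n := by
    unfold De
    rw [← pow_mul]
    refine Nat.pow_le_pow_right (by norm_num) ?_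
    nlinarith
  have h6 : Q.eval n * De n ≤ 2 ^ n := by
    by_contra hcon
    push Not at hcon
    have h7 : 2 ^ n * 2 ^ n < (Q.eval n * De n) * (Q.eval n * De n) :=
      Nat.mul_lt_mul'' hcon hcon
    have h8 : (Q.eval n * De n) * (Q.eval n * De n) ≤ 2 ^ n * 2 ^ n := by
      calc (Q.eval n * De n) * (Q.eval n * De n) = Q.eval n ^ 2 * De n ^ 2 := by ring
        _ ≤ _ := Nat.mul_le_mul h2 h5
    omega
  refine le_trans ?_ h6
  rw [hQe]
  have hD : 1 ≤ De n := Nat.one_le_two_pow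
  rw [mul_assoc (64 * (18 * rq M p n + 1))]
  refine Nat.mul_le_mul_left _ ?_
  have : 2 * n + 2 ≤ (2 * n + 2) * De n := Nat.le_mul_of_pos_right _ hD
  calc 2 * n + 2 + (La M p n + 2) * De n ≤ (2 * n + 2) * De n + (La M p n + 2) * De n := by omega
    _ = _ := by ring

theorem ev_late {α : ℕ → ℕ} (hα : Monotone α) (hα' : Tendsto α atTop atTop) (M : Alg)
    (p : Polynomial ℕ) : ∀ᶠ n : ℕ in atTop, La M p n ≤ lam α n := by
  set I : Polynomial ℕ := 2 * Polynomial.X + 1 + (2 * p + 1 + p * (2 * p + 1)) with hI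
  filter_upwards [le_lam hα hα' ((lb M).comp I)] with n h1
  rw [Polynomial.eval_comp] at h1
  have hIe : I.eval n = il n (p.eval n) := by
    simp only [hI, il, Polynomial.eval_add, Polynomial.eval_mul, Polynomial.eval_ofNat,
      Polynomial.eval_X, Polynomial.eval_one]
  rw [hIe] at h1
  exact h1

variable {α : ℕ → ℕ} {g : ℕ → Pool.Agent.H620R2.Gauge.SAlg × Polynomial ℕ}
  {S : ℕ → Polynomial ℕ} {Φ : Oracle → Oracle}

theorem ae_one (hc : Cp g S (bt α) Φ) (hα : Monotone α) (hα' : Tendsto α atTop atTop)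
    (C : Oracle) (M : Alg) (p : Polynomial ℕ) : ∀ᵐ A ∂randomOracle,
      ∀ᶠ n : ℕ in atTop, A ∉ Ev Φ C M p n (La M p n) (De n) := by
  obtain ⟨n₀, h0⟩ := eventually_atTop.1 (((ev_sizes M p).and (ev_late hα hα' M p)).and
    (eventually_ge_atTop 1))
  have h1 : ∀ n, prob (Ev Φ C M p (n + n₀) (La M p (n + n₀)) (De (n + n₀))) ≤ (1 / 2) ^ n := by
    intro n
    obtain ⟨⟨h2, h3⟩, h4⟩ := h0 (n + n₀) (by omega)
    have h5 : 18 * rq M p (n + n₀) ≤ 2 ^ (n + n₀) := by
      set K := 18 * rq M p (n + n₀) with hK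
      set E := 2 * (n + n₀) + 2 + (La M p (n + n₀) + 2) * De (n + n₀) with hE
      have : 1 ≤ E := by omega
      have : (K + 1) * 1 ≤ (K + 1) * E := Nat.mul_le_mul_left _ this
      nlinarith
    refine (prob_Ev hc C M p h4 h3 h5).trans ((bound h2).trans ?_)
    exact pow_le_pow_of_le_one (by norm_num) (by norm_num) (by omega)
  have h2 : ∑' n, randomOracle (Ev Φ C M p (n + n₀) (La M p (n + n₀)) (De (n + n₀))) ≠ ⊤ := by
    have hs : Summable (fun n : ℕ => (1 / 2 : ℝ) ^ n) :=
      summable_geometric_of_lt_one (by norm_num) (by norm_num)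
    have h3 : ∀ n, randomOracle (Ev Φ C M p (n + n₀) (La M p (n + n₀)) (De (n + n₀))) ≤
        ENNReal.ofReal ((1 / 2) ^ n) := fun n => (prob_le_iff (by positivity)).1 (h1 n)
    exact ne_top_of_le_ne_top hs.tsum_ofReal_ne_top (ENNReal.tsum_le_tsum h3)
  filter_upwards [ae_eventually_notMem h2] with A hA
  obtain ⟨a, ha⟩ := eventually_atTop.1 hA
  filter_upwards [eventually_ge_atTop (a + n₀)] with n hn
  have h4 := ha (n - n₀) (by omega)
  rwa [Nat.sub_add_cancel (by omega)] at h4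

theorem ev_dense {T : Oracle} (hT : SubexpDense T) (M : Alg) (p : Polynomial ℕ) :
    ∀ᶠ n : ℕ in atTop, ({x : List Bool | x.length ≤ La M p n ∧ T x = true}).ncard ≤ De n := by
  set I : Polynomial ℕ := 2 * Polynomial.X + 1 + (2 * p + 1 + p * (2 * p + 1)) with hI
  obtain ⟨c, hc⟩ := Pool.Agent.J6H49.BI.eval_le_self_pow ((lb M).comp I)
  have hsq : Tendsto (fun n : ℕ => Nat.sqrt n + 1) atTop atTop := by
    rw [tendsto_atTop]
    intro b
    filter_upwards [eventually_ge_atTop (b * b)] with n hn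
    have : b ≤ Nat.sqrt n := Nat.le_sqrt.2 hn
    omega
  filter_upwards [hc, hsq.eventually (hT (2 * c))] with n h1 h2
  rw [Polynomial.eval_comp] at h1
  have hIe : I.eval n = il n (p.eval n) := by
    simp only [hI, il, Polynomial.eval_add, Polynomial.eval_mul, Polynomial.eval_ofNat,
      Polynomial.eval_X, Polynomial.eval_one]
  rw [hIe] at h1
  have h3 : n ≤ (Nat.sqrt n + 1) ^ 2 := by
    have := Nat.lt_succ_sqrt n
    rw [pow_two]
    exact this.le
  have h4 : La M p n ≤ (Nat.sqrt n + 1) ^ (2 * c) := by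
    calc La M p n ≤ n ^ c := h1
      _ ≤ ((Nat.sqrt n + 1) ^ 2) ^ c := Nat.pow_le_pow_left h3 c
      _ = _ := by rw [← pow_mul]
  have h5 : {x : List Bool | x.length ≤ La M p n ∧ T x = true} ⊆
      {x : List Bool | x.length ≤ (Nat.sqrt n + 1) ^ (2 * c) ∧ T x = true} :=
    fun x hx => ⟨hx.1.trans h4, hx.2⟩
  refine le_trans (Set.ncard_le_ncard h5 ?_) h2
  exact (List.finite_length_le Bool _).subset fun x hx => hx.1

/-- **The main theorem**: a random oracle with late information. -/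
theorem ae_main (hc : Cp g S (bt α) Φ) (hα : Monotone α) (hα' : Tendsto α atTop atTop)
    (C : Oracle) : ∀ᵐ A ∂randomOracle, ∀ T : Oracle, SubexpDense T →
      ¬ IsIPio (join (oracle Φ C A) T) (HL A)ᶜ := by
  have h : ∀ᵐ A ∂randomOracle, ∀ q : Alg × Polynomial ℕ,
      ∀ᶠ n : ℕ in atTop, A ∉ Ev Φ C q.1 q.2 n (La q.1 q.2 n) (De n) := by
    rw [ae_all_iff]
    exact fun q => ae_one hc hα hα' C q.1 q.2
  filter_upwards [h] with A hA T hT
  rintro ⟨V, p, ⟨M, hM⟩, hx⟩
  obtain ⟨n, h1, h2, h3⟩ := (hx.and_eventually ((hA (M, p)).and (ev_dense hT M p))).exists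
  obtain ⟨f, hf⟩ := exists_tbl h3
  refine h2 ⟨f, fun x hxn => ?_⟩
  have h4 := h1 x hxn
  rw [← val_eq hM] at h4
  refine (correct_congr (M := M) (p := p) Iff.rfl fun q hq => ?_).2 h4
  match q with
  | [] => rfl
  | false :: s => rfl
  | true :: s =>
    show tbl f s = T s
    refine hf s ?_
    rw [List.length_cons, hxn] at hq
    unfold La
    omega

/-- `P` is contained in `IP`. -/
theorem IsP.isIP {B : Oracle} {L : Set (List Bool)} (h : IsP B L) : IsIP B L := by
  classical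
  obtain ⟨V, hV, hx⟩ := h
  refine ⟨fun z => V (unpair z).1, 0, IsFP.comp hV (IsFP.of_poly (Poly.fst poly_unpair)),
    fun x => ?_⟩
  have h1 : ∀ P w, Accepts (fun z => V (unpair z).1) P 0 x w ↔ x ∈ L := by
    intro P w
    unfold Accepts
    rw [hx x]
    simp only [unpair_pairBits]
  unfold CorrectAt
  simp only [Polynomial.eval_zero, h1, pr_cnt]
  constructor
  · intro hL
    refine ⟨fun _ => [], ?_⟩
    rw [cnt_eq]
    simp [hL]
    norm_num
  · intro hL P
    rw [cnt_eq]
    simp [hL]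

theorem IsIP.isIPio {B : Oracle} {L : Set (List Bool)} (h : IsIP B L) : IsIPio B L := by
  obtain ⟨V, p, hV, hx⟩ := h
  exact ⟨V, p, hV, (Eventually.of_forall fun n x _ => hx x).frequently⟩

theorem IsP.compl {B : Oracle} {L : Set (List Bool)} (h : IsP B L) : IsP B Lᶜ := by
  obtain ⟨V, hV, hx⟩ := h
  refine ⟨fun x => if V x = [true] then [] else [true], ?_, fun x => ?_⟩
  · refine IsFP.comp (G := fun y : List Bool => if y = [true] then [] else [true])
      (IsFP.of_poly ?_) hV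
    exact Poly.ite (Poly.decide_eq Poly.id (NPC.Poly.const _)) (NPC.Poly.const _)
      (NPC.Poly.const _)
  · rw [Set.mem_compl_iff, hx x]
    show ¬ V x = [true] ↔ (if V x = [true] then [] else [true]) = [true]
    split_ifs with h1
    · simp [h1]
    · simp [h1]

theorem pr_true {m : ℕ} {E : List Bool → Prop} (h : ∀ w : Blk m, E (List.ofFn w)) :
    pr m E = 1 := by
  classical
  rw [pr_cnt, cnt_eq]
  simp only [h, Finset.filter_true, Finset.card_univ, card_Blk]
  push_cast
  exact div_self (by positivity)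

theorem pr_false {m : ℕ} {E : List Bool → Prop} (h : ∀ w : Blk m, ¬ E (List.ofFn w)) :
    pr m E = 0 := by
  classical
  rw [pr_cnt, cnt_eq]
  simp [h]

theorem acc_one {V₁ V : List Bool → List Bool} {p : Polynomial ℕ}
    (h : ∀ x w t t' : List Bool, V₁ (pairBits x (pairBits w (pairBits t t'))) =
      if t.length ≤ p.eval x.length then V (pairBits x t) else [])
    (P : List (List Bool) → List Bool) (k : ℕ) (x w : List Bool) :
    ∃ m : List (List Bool), Accepts V₁ P (k + 1) x w ↔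
      ((P m).take (k + 1)).length ≤ p.eval x.length ∧
        V (pairBits x ((P m).take (k + 1))) = [true] := by
  refine ⟨V₁ (pairBits x (pairBits w (talk V₁ P (k + 1) x w k).2)) ::
    (talk V₁ P (k + 1) x w k).1, ?_⟩
  unfold Accepts
  rw [talk, h]
  split_ifs with h1
  · exact ⟨fun h2 => ⟨h1, h2⟩, fun h2 => h2.2⟩
  · exact ⟨fun h2 => by simp at h2, fun h2 => absurd h2.1 h1⟩

/-- `NP` is contained in `IP`. -/
theorem isIP_of_isNP {B : Oracle} {L : Set (List Bool)} (h : IsNP B L) : IsIP B L := by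
  obtain ⟨V, p, hV, hx⟩ := h
  set fx : List Bool → List Bool := fun z => (unpair z).1 with hfx
  set fy : List Bool → List Bool := fun z => (unpair (unpair (unpair z).2).2).1 with hfy
  have hpx : Poly fx := Poly.fst poly_unpair
  have hpy : Poly fy := Poly.fst (poly_unpair.comp (Poly.snd (poly_unpair.comp
    (Poly.snd poly_unpair))))
  have h1 : IsFP B (fun z => V (pairBits (fx z) (fy z))) :=
    IsFP.comp hV (IsFP.of_poly (Pool.Agent.H622R2.poly_pairBits hpx hpy))
  have h2 : IsFP B (fun z => pairBits z (V (pairBits (fx z) (fy z)))) :=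
    IsFP.pair (IsFP.of_poly Poly.id) h1
  have h3 : IsFP B (fun z => if (fy z).length ≤ p.eval (fx z).length then
      V (pairBits (fx z) (fy z)) else []) := by
    have h4 := IsFP.comp (G := fun u => if (fy (unpair u).1).length ≤
      p.eval (fx (unpair u).1).length then (unpair u).2 else []) (IsFP.of_poly (by
        have hu : Poly (fun u : List Bool => (unpair u).1) := Poly.fst poly_unpair
        refine Poly.ite (Poly.decide_le (Poly.length (hpy.comp hu)) ?_) (Poly.snd poly_unpair)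
          (NPC.Poly.const [])
        exact (UPoly.eval (UPoly.length (hpx.comp hu)) p).toPoly)) h2
    simpa only [unpair_pairBits] using h4
  have h4 := acc_one (V₁ := fun z => if (fy z).length ≤ p.eval (fx z).length then
      V (pairBits (fx z) (fy z)) else []) (V := V) (p := p) (fun x w t t' => by
        simp only [hfx, hfy, unpair_pairBits])
  refine ⟨_, p + 1, h3, fun x => ?_⟩
  have e : (p + 1).eval x.length = p.eval x.length + 1 := by simp
  constructor
  · intro hL
    obtain ⟨y, hy1, hy2⟩ := (hx x).1 hL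
    refine ⟨fun _ => y, ?_⟩
    rw [pr_true]
    · norm_num
    · intro w
      obtain ⟨m, hm⟩ := h4 (fun _ => y) (p.eval x.length) x (List.ofFn w)
      rw [← e] at hm
      rw [hm, List.take_of_length_le (by omega)]
      exact ⟨hy1, hy2⟩
  · intro hL P
    rw [pr_false]
    · norm_num
    · intro w hw
      obtain ⟨m, hm⟩ := h4 P (p.eval x.length) x (List.ofFn w)
      rw [← e] at hm
      obtain ⟨h5, h6⟩ := hm.1 hw
      exact hL ((hx x).2 ⟨_, h5, h6⟩)

/-- the general statement -/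
theorem main (α : ℕ → ℕ) (hα : Monotone α) (hα' : Tendsto α atTop atTop) (C : Oracle) :
    ∃ O : Oracle → Oracle,
      (∀ A, NearlyCollapsed α (O A) ∧ Contains (O A) A ∧ Contains (O A) C) ∧
      ∀ᵐ A ∂randomOracle, ∃ L : Set (List Bool), IsNP (O A) L ∧ ∀ T : Oracle, SubexpDense T →
        ¬ IsIPio (join (O A) T) Lᶜ := by
  obtain ⟨g, hg⟩ := Pool.Agent.H620R2.Gauge.CC.exists_enum
  obtain ⟨S, Φ, hc⟩ := exists_cp g (bt (slow2 α))
  refine ⟨oracle Φ C, fun A => ⟨?_, ⟨[false, false], fun x => rfl⟩,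
    ⟨[false, true], fun x => rfl⟩⟩, ?_⟩
  · exact nearly hg hα hc (join A C)
  · filter_upwards [ae_main hc (slow2_mono hα) (slow2_tendsto hα') C] with A hA
    exact ⟨HL A, isNP_lift [false, false] (fun x => rfl) (isNP_HL A), hA⟩

end Pool.Agent.J6H49.IP
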