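import Pool.Agent.J6H49.AM.Defs
import Pool.Agent.TH678.GC.Defs

/-!
# Interactive proofs relative to an oracle
-/

set_option autoImplicit false

namespace Pool.Agent.J6H49.IP

open Pool.Agent.NPC Pool.Agent.H628R3.RO Pool.Agent.J6H49.AM Filter

/-- The conversation of the verifier `V` with the prover `P` on the input `x`, after `k` rounds,
when the private random string of the verifier is `w`. The first component is the list of the
messages of the verifier, the last message first; the second component is the string which codes the
list of the answers of the prover, the last answer first. In every round the verifier sends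
`V ⟨x, ⟨w, answers so far⟩⟩`, and the prover answers with a string which depends on the messages of
the verifier, of which the first `ℓ` bits are used. -/
def talk (V : List Bool → List Bool) (P : List (List Bool) → List Bool) (ℓ : ℕ)
    (x w : List Bool) : ℕ → List (List Bool) × List Bool
  | 0 => ([], [])
  | k + 1 =>
    (V (pairBits x (pairBits w (talk V P ℓ x w k).2)) :: (talk V P ℓ x w k).1,
      pairBits ((P (V (pairBits x (pairBits w (talk V P ℓ x w k).2)) ::
        (talk V P ℓ x w k).1)).take ℓ) (talk V P ℓ x w k).2)

/-- The verifier accepts, after `ℓ` rounds. -/
def Accepts (V : List Bool → List Bool) (P : List (List Bool) → List Bool) (ℓ : ℕ)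
    (x w : List Bool) : Prop :=
  V (pairBits x (pairBits w (talk V P ℓ x w ℓ).2)) = [true]

/-- The verifier `V` is correct for the language `L` at the input `x`, with `p |x|` rounds, private
random strings of length `p |x|` and answers of length at most `p |x|`: if `x` is in `L`, then some
prover makes it accept with probability at least `2 / 3`; if `x` is not in `L`, then every prover
makes it accept with probability at most `1 / 3`. -/
def CorrectAt (V : List Bool → List Bool) (p : Polynomial ℕ) (L : Set (List Bool))
    (x : List Bool) : Prop :=
  (x ∈ L → ∃ P : List (List Bool) → List Bool,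
    2 / 3 ≤ pr (p.eval x.length) fun w => Accepts V P (p.eval x.length) x w) ∧
  (x ∉ L → ∀ P : List (List Bool) → List Bool,
    (pr (p.eval x.length) fun w => Accepts V P (p.eval x.length) x w) ≤ 1 / 3)

/-- The class `IP` relative to the oracle `B`: interactive proofs with polynomially many rounds,
private coins and two-sided error. The verifier works in polynomial time with oracle `B`. -/
def IsIP (B : Oracle) (L : Set (List Bool)) : Prop :=
  ∃ (V : List Bool → List Bool) (p : Polynomial ℕ), IsFP B V ∧ ∀ x, CorrectAt V p L x

/-- The interactive proof is only required to be correct for all inputs of length `n`, for infinitely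
many `n`. -/
def IsIPio (B : Oracle) (L : Set (List Bool)) : Prop :=
  ∃ (V : List Bool → List Bool) (p : Polynomial ℕ), IsFP B V ∧
    ∃ᶠ n : ℕ in atTop, ∀ x : List Bool, x.length = n → CorrectAt V p L x

/-- The set `S` has subexponential density: for all `k`, it has at most `2 ^ n` elements of length at
most `n ^ k`, for all large `n`. -/
def SubexpDense (S : Oracle) : Prop :=
  ∀ k : ℕ, ∀ᶠ n : ℕ in atTop,
    ({x : List Bool | x.length ≤ n ^ k ∧ S x = true}).ncard ≤ 2 ^ n

/-- `P` relative to `B` -/
def IsP (B : Oracle) (L : Set (List Bool)) : Prop :=
  ∃ V : List Bool → List Bool, IsFP B V ∧ ∀ x, x ∈ L ↔ V x = [true]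

end Pool.Agent.J6H49.IP
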