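import Mathlib

/-!
# Resampling one coordinate, and products of functions of disjoint coordinates
-/

set_option autoImplicit false

namespace Pool.Agent.J6H49.IP

section

variable {Ω Ω' : Type} [Fintype Ω] [Fintype Ω']

open Classical in
/-- number of elements with a property -/
noncomputable def cnt (E : Ω → Prop) : ℕ := (Finset.univ.filter E).card

theorem cnt_eq (E : Ω → Prop) [DecidablePred E] : cnt E = (Finset.univ.filter E).card := by
  unfold cnt
  simp only [Finset.card_filter]
  refine Finset.sum_congr rfl fun ω _ => ?_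
  split_ifs <;> rfl

theorem cnt_mono {E E' : Ω → Prop} (h : ∀ ω, E ω → E' ω) : cnt E ≤ cnt E' := by
  classical
  unfold cnt
  refine Finset.card_le_card fun ω hω => ?_
  rw [Finset.mem_filter] at hω ⊢
  exact ⟨hω.1, h ω hω.2⟩

theorem cnt_le_add {E E' E'' : Ω → Prop} (h : ∀ ω, E ω → E' ω ∨ E'' ω) :
    cnt E ≤ cnt E' + cnt E'' := by
  classical
  unfold cnt
  refine (Finset.card_le_card (t := Finset.univ.filter E' ∪ Finset.univ.filter E'')
    fun ω hω => ?_).trans (Finset.card_union_le _ _)
  rw [Finset.mem_union, Finset.mem_filter, Finset.mem_filter]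
  rw [Finset.mem_filter] at hω
  rcases h ω hω.2 with h1 | h1
  · exact Or.inl ⟨Finset.mem_univ _, h1⟩
  · exact Or.inr ⟨Finset.mem_univ _, h1⟩

theorem cnt_le_card (E : Ω → Prop) : cnt E ≤ Fintype.card Ω := by
  classical
  unfold cnt
  exact Finset.card_le_univ _

theorem cnt_add_not (E E' : Ω → Prop) :
    cnt (fun ω => E ω ∧ E' ω) + cnt (fun ω => E ω ∧ ¬ E' ω) = cnt E := by
  classical
  rw [cnt_eq, cnt_eq, cnt_eq, ← Finset.filter_filter, ← Finset.filter_filter]
  exact Finset.card_filter_add_card_filter_not _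

theorem cnt_swap (E : Ω → Ω' → Prop) :
    ∑ ω, cnt (fun ω' => E ω ω') = ∑ ω', cnt (fun ω => E ω ω') := by
  classical
  simp only [cnt, Finset.card_filter]
  exact Finset.sum_comm

theorem cnt_cast (E : Ω → Prop) [DecidablePred E] :
    (cnt E : ℝ) = ∑ ω, if E ω then (1 : ℝ) else 0 := by
  rw [cnt_eq, Finset.card_filter]
  push_cast
  rfl

/-- Markov's inequality -/
theorem cnt_mul_le (E : Ω → Prop) (f : Ω → ℝ) (a : ℝ) (h : ∀ ω, E ω → a ≤ f ω)
    (h0 : ∀ ω, 0 ≤ f ω) : cnt E * a ≤ ∑ ω, f ω := by
  classical
  unfold cnt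
  calc ((Finset.univ.filter E).card : ℝ) * a = ∑ _ω ∈ Finset.univ.filter E, a := by
        rw [Finset.sum_const, nsmul_eq_mul]
    _ ≤ ∑ ω ∈ Finset.univ.filter E, f ω := by
        refine Finset.sum_le_sum fun ω hω => ?_
        exact h ω (Finset.mem_filter.1 hω).2
    _ ≤ _ := Finset.sum_le_sum_of_subset_of_nonneg (Finset.subset_univ _) fun ω _ _ => h0 ω

end

variable {V X : Type} [Fintype V] [DecidableEq V] [Fintype X] [DecidableEq X]

/-- resample the coordinate `u` -/
def swp (u : V) : ((V → X) × X) ≃ ((V → X) × X) where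
  toFun p := (Function.update p.1 u p.2, p.1 u)
  invFun p := (Function.update p.1 u p.2, p.1 u)
  left_inv := by
    rintro ⟨z, x⟩
    simp
  right_inv := by
    rintro ⟨z, x⟩
    simp

theorem resample (u : V) (F : (V → X) → ℝ) :
    ∑ z : V → X, ∑ x : X, F (Function.update z u x) =
      Fintype.card X * ∑ z : V → X, F z := by
  have h1 : ∑ z : V → X, ∑ x : X, F (Function.update z u x) =
      ∑ p : (V → X) × X, F (Function.update p.1 u p.2) :=
    (Fintype.sum_prod_type (f := fun p : (V → X) × X => F (Function.update p.1 u p.2))).symm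
  have h2 : ∑ p : (V → X) × X, F (Function.update p.1 u p.2) =
      ∑ p : (V → X) × X, F p.1 :=
    Equiv.sum_comp (swp u) (fun p : (V → X) × X => F p.1)
  rw [h1, h2, Fintype.sum_prod_type]
  simp only [Finset.sum_const, Finset.card_univ, nsmul_eq_mul]
  rw [Finset.mul_sum]

/-- The sum of a product of functions, which are small in the mean over a coordinate of their
own. -/
theorem avg [Nonempty X] (G : Finset V) (h : V → (V → X) → ℝ) (h0 : ∀ v z, 0 ≤ h v z)
    (hloc : ∀ v ∈ G, ∀ u ∈ G, u ≠ v → ∀ z x, h v (Function.update z u x) = h v z)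
    (hsum : ∀ v ∈ G, ∀ z, ∑ x, h v (Function.update z v x) ≤ Fintype.card X) :
    ∑ z : V → X, ∏ v ∈ G, h v z ≤ (Fintype.card X : ℝ) ^ Fintype.card V := by
  have key : ∀ T : Finset V, T ⊆ G →
      ∑ z : V → X, ∏ v ∈ T, h v z ≤ (Fintype.card X : ℝ) ^ Fintype.card V := by
    intro T
    induction T using Finset.induction_on with
    | empty =>
      intro _
      simp
    | insert u T hu ih =>
      intro hT
      have huG : u ∈ G := hT (Finset.mem_insert_self _ _)
      have hTG : T ⊆ G := fun v hv => hT (Finset.mem_insert_of_mem hv)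
      have hX : (0 : ℝ) < Fintype.card X := by exact_mod_cast Fintype.card_pos
      have h1 := resample u (fun z : V → X => ∏ v ∈ insert u T, h v z)
      have h2 : ∀ z : V → X, ∑ x : X, ∏ v ∈ insert u T, h v (Function.update z u x) ≤
          Fintype.card X * ∏ v ∈ T, h v z := by
        intro z
        have h3 : ∀ x : X, ∏ v ∈ insert u T, h v (Function.update z u x) =
            h u (Function.update z u x) * ∏ v ∈ T, h v z := by
          intro x
          rw [Finset.prod_insert hu]
          congr 1
          refine Finset.prod_congr rfl fun v hv => ?_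
          exact hloc v (hTG hv) u huG (fun e => hu (e ▸ hv)) z x
        rw [Finset.sum_congr rfl fun x _ => h3 x, ← Finset.sum_mul]
        exact mul_le_mul_of_nonneg_right (hsum u huG z) (Finset.prod_nonneg fun v _ => h0 v z)
      have h4 : Fintype.card X * ∑ z : V → X, ∏ v ∈ insert u T, h v z ≤
          Fintype.card X * ∑ z : V → X, ∏ v ∈ T, h v z := by
        rw [← h1, Finset.mul_sum]
        exact Finset.sum_le_sum fun z _ => h2 z
      exact (le_of_mul_le_mul_left h4 hX).trans (ih hTG)
  exact key G (Finset.Subset.refl _)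

/-- Few points have many coordinates of the second kind and none of the first kind. -/
theorem count_le [Nonempty X] (G : Finset V) (B L : V → (V → X) → Prop)
    (hB : ∀ v ∈ G, ∀ u ∈ G, u ≠ v → ∀ z x, (B v (Function.update z u x) ↔ B v z))
    (hL : ∀ v ∈ G, ∀ u ∈ G, u ≠ v → ∀ z x, (L v (Function.update z u x) ↔ L v z))
    (hBL : ∀ v z, ¬ (B v z ∧ L v z))
    (hle : ∀ v ∈ G, ∀ z, cnt (fun x => L v (Function.update z v x)) ≤
      2 * cnt (fun x => B v (Function.update z v x))) (t : ℕ) :
    (cnt (fun z : V → X => (∀ v ∈ G, ¬ B v z) ∧ t ≤ cnt (fun v => v ∈ G ∧ L v z)) : ℝ) ≤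
      (Fintype.card X : ℝ) ^ Fintype.card V * (2 / 3) ^ t := by
  classical
  set h : V → (V → X) → ℝ := fun v z => if B v z then 0 else if L v z then 3 / 2 else 1 with hh
  have h0 : ∀ v z, 0 ≤ h v z := by
    intro v z
    rw [hh]
    dsimp only
    split_ifs <;> norm_num
  have h1 := avg G h h0 (fun v hv u hu hne z x => by
    simp only [hh, hB v hv u hu hne, hL v hv u hu hne]) (fun v hv z => by
    have e : ∀ x, h v (Function.update z v x) = 1 -
        (if B v (Function.update z v x) then 1 else 0) +
        1 / 2 * (if L v (Function.update z v x) then 1 else 0) := by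
      intro x
      have := hBL v (Function.update z v x)
      simp only [hh]
      by_cases h1 : B v (Function.update z v x) <;> by_cases h2 : L v (Function.update z v x) <;>
        simp only [h1, h2, if_true, if_false]
      · exact absurd ⟨h1, h2⟩ this
      all_goals norm_num
    rw [Finset.sum_congr rfl fun x _ => e x, Finset.sum_add_distrib, Finset.sum_sub_distrib,
      ← Finset.mul_sum, ← cnt_cast, ← cnt_cast]
    have h3 : ((cnt (fun x => L v (Function.update z v x)) : ℕ) : ℝ) ≤
        2 * (cnt (fun x => B v (Function.update z v x)) : ℕ) := by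
      exact_mod_cast hle v hv z
    simp only [Finset.sum_const, Finset.card_univ, nsmul_eq_mul, mul_one]
    linarith)
  have h3 := cnt_mul_le (fun z : V → X => (∀ v ∈ G, ¬ B v z) ∧
    t ≤ cnt (fun v => v ∈ G ∧ L v z)) (fun z => ∏ v ∈ G, h v z) ((3 / 2) ^ t) (fun z hz => by
      obtain ⟨hz1, hz2⟩ := hz
      have e : ∏ v ∈ G, h v z = (3 / 2) ^ (G.filter fun v => L v z).card := by
        rw [← Finset.prod_const, Finset.prod_filter]
        refine Finset.prod_congr rfl fun v hv => ?_
        simp only [hh, hz1 v hv, if_false]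
      rw [e]
      refine pow_le_pow_right₀ (by norm_num) (hz2.trans ?_)
      rw [cnt_eq]
      refine Finset.card_le_card fun v hv => ?_
      rw [Finset.mem_filter] at hv ⊢
      exact hv.2) fun z => Finset.prod_nonneg fun v _ => h0 v z
  have h4 : ((2 : ℝ) / 3) ^ t * (3 / 2) ^ t = 1 := by
    rw [← mul_pow]
    norm_num
  have h5 : (0 : ℝ) < (2 / 3) ^ t := by positivity
  have h6 := h3.trans h1
  nlinarith

/-- Few points have few coordinates in a set of density at least `1 / 4`. -/
theorem count_few [Nonempty X] (P : X → Prop) (hP : Fintype.card X ≤ 4 * cnt P) :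
    (cnt (fun z : V → X => 8 * cnt (fun v => P (z v)) ≤ Fintype.card V) : ℝ) ≤
      (Fintype.card X : ℝ) ^ Fintype.card V * (3 / 4) ^ (Fintype.card V / 8) := by
  classical
  set h : V → (V → X) → ℝ := fun v z => if P (z v) then 4 / 7 else 8 / 7 with hh
  have h0 : ∀ v z, 0 ≤ h v z := by
    intro v z
    rw [hh]
    dsimp only
    split_ifs <;> norm_num
  have h1 := avg Finset.univ h h0 (fun v _ u _ hne z x => by
    simp only [hh, Function.update_of_ne hne.symm]) (fun v _ z => by
    have e : ∀ x, h v (Function.update z v x) = 8 / 7 - 4 / 7 * (if P x then 1 else 0) := by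
      intro x
      simp only [hh, Function.update_self]
      split_ifs <;> norm_num
    rw [Finset.sum_congr rfl fun x _ => e x, Finset.sum_sub_distrib,
      ← Finset.mul_sum, ← cnt_cast]
    have h3 : (Fintype.card X : ℝ) ≤ 4 * (cnt P : ℕ) := by
      exact_mod_cast hP
    simp only [Finset.sum_const, Finset.card_univ, nsmul_eq_mul]
    linarith)
  set N := Fintype.card V with hN
  have h3 := cnt_mul_le (fun z : V → X => 8 * cnt (fun v => P (z v)) ≤ N)
    (fun z => ∏ v, h v z) ((4 / 3) ^ (N / 8)) (fun z hz => by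
      set a := cnt (fun v => P (z v)) with ha
      have e : ∏ v, h v z = (8 / 7) ^ N * (1 / 2) ^ a := by
        have e1 : ∀ v, h v z = (8 / 7) * (if P (z v) then 1 / 2 else 1) := by
          intro v
          simp only [hh]
          split_ifs <;> norm_num
        rw [Finset.prod_congr rfl fun v _ => e1 v, Finset.prod_mul_distrib, Finset.prod_const,
          Finset.card_univ, ← Finset.prod_filter, Finset.prod_const, ha, cnt_eq]
      show _ ≤ ∏ v, h v z
      rw [e]
      have h3 : a ≤ N / 8 := by
        have : 8 * a ≤ N := hz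
        omega
      have h4 : 8 * (N / 8) ≤ N := Nat.mul_div_le N 8
      calc (4 / 3 : ℝ) ^ (N / 8) ≤ ((8 / 7) ^ 8 * (1 / 2)) ^ (N / 8) :=
            pow_le_pow_left₀ (by norm_num) (by norm_num) _
        _ = (8 / 7) ^ (8 * (N / 8)) * (1 / 2) ^ (N / 8) := by rw [mul_pow, ← pow_mul]
        _ ≤ (8 / 7) ^ N * (1 / 2) ^ a := by
            refine mul_le_mul (pow_le_pow_right₀ (by norm_num) h4)
              (pow_le_pow_of_le_one (by norm_num) (by norm_num) h3) (by positivity)
              (by positivity)) fun z => Finset.prod_nonneg fun v _ => h0 v z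
  have h4 : ((3 : ℝ) / 4) ^ (N / 8) * (4 / 3) ^ (N / 8) = 1 := by
    rw [← mul_pow]
    norm_num
  have h5 : (0 : ℝ) < (3 / 4) ^ (N / 8) := by positivity
  have h6 := h3.trans h1
  nlinarith

end Pool.Agent.J6H49.IP
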