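import Pool.Agent.J6H49.IP.Game

/-!
# The number of tables for which the verifier is correct everywhere
-/

set_option autoImplicit false

namespace Pool.Agent.J6H49.IP

variable {V Y W P Ω C : Type} [Fintype V] [DecidableEq V] [Fintype C] [DecidableEq C]

theorem col1 (c₀ : C) (v : V) :
    (Fintype.card C : ℝ) * cnt (fun c : V → C => c v = c₀) =
      (Fintype.card C : ℝ) ^ Fintype.card V := by
  have h := resample v (fun c : V → C => if c v = c₀ then (1 : ℝ) else 0)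
  rw [← cnt_cast] at h
  rw [← h]
  simp

theorem col2 (c₀ : C) {u v : V} (hne : u ≠ v) :
    (Fintype.card C : ℝ) ^ 2 * cnt (fun c : V → C => c v = c₀ ∧ c u = c₀) =
      (Fintype.card C : ℝ) ^ Fintype.card V := by
  have h := resample v (fun c : V → C => if c v = c₀ ∧ c u = c₀ then (1 : ℝ) else 0)
  have e : ∀ c : V → C, ∑ x : C, (if Function.update c v x v = c₀ ∧
      Function.update c v x u = c₀ then (1 : ℝ) else 0) = if c u = c₀ then 1 else 0 := by
    intro c
    simp only [Function.update_self, Function.update_of_ne hne]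
    by_cases h1 : c u = c₀
    · simp [h1]
    · simp [h1]
  rw [Finset.sum_congr rfl fun c _ => e c, ← cnt_cast, ← cnt_cast] at h
  rw [pow_two, mul_assoc, ← h]
  exact col1 c₀ u

variable [Fintype Ω]

theorem many_col [Nonempty Ω] (g : Game V Y W P Ω) (top : W) (c₀ : C) {r : ℕ}
    (hr : ∀ v z s ω, (g.Q v z s ω).card ≤ r) (hC : 18 * r ≤ Fintype.card C) {v : V}
    {z : V → Y → W} {s : P} (hz : ¬ hit top (z v))
    (hs : 2 * Fintype.card Ω ≤ 3 * cnt (g.acc v z s)) :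
    (Fintype.card C : ℝ) ^ Fintype.card V ≤ 2 * Fintype.card C *
      cnt (fun c : V → C => c v = c₀ ∧ Lp g top c c₀ v z) := by
  classical
  set K := Fintype.card C with hK
  set N := Fintype.card V with hN
  have hKpos : 0 < K := Fintype.card_pos_iff.2 ⟨c₀⟩
  have hKr : (0 : ℝ) < K := by exact_mod_cast hKpos
  have hΩ : (0 : ℝ) < Fintype.card Ω := by exact_mod_cast Fintype.card_pos
  have hA := cnt_add_not (fun c : V → C => c v = c₀) (fun c => Lp g top c c₀ v z)
  set D := cnt (fun c : V → C => c v = c₀ ∧ ¬ Lp g top c c₀ v z) with hD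
  set G := cnt (fun c : V → C => c v = c₀ ∧ Lp g top c c₀ v z) with hG
  -- the bad colourings
  have h1 : (D : ℝ) * Fintype.card Ω ≤
      ∑ c : V → C, 9 * (cnt (fun ω => c v = c₀ ∧ ¬ ins c c₀ v (g.Q v z s ω)) : ℝ) := by
    refine cnt_mul_le (fun c : V → C => c v = c₀ ∧ ¬ Lp g top c c₀ v z) _ _
      (fun c hc => ?_) fun c => by positivity
    obtain ⟨hc0, hc⟩ := hc
    have h2 : 9 * cnt (fun ω => g.acc v z s ω ∧ ins c c₀ v (g.Q v z s ω)) <
        5 * Fintype.card Ω := by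
      by_contra hcon
      exact hc ⟨hz, s, not_lt.1 hcon⟩
    have h3 := cnt_le_add (E := g.acc v z s)
      (E' := fun ω => g.acc v z s ω ∧ ins c c₀ v (g.Q v z s ω))
      (E'' := fun ω => c v = c₀ ∧ ¬ ins c c₀ v (g.Q v z s ω)) (fun ω h => by tauto)
    have h4 : Fintype.card Ω ≤ 9 * cnt (fun ω => c v = c₀ ∧ ¬ ins c c₀ v (g.Q v z s ω)) := by
      omega
    exact_mod_cast h4
  have h2 : ∑ c : V → C, (cnt (fun ω => c v = c₀ ∧ ¬ ins c c₀ v (g.Q v z s ω)) : ℝ) =
      ∑ ω : Ω, (cnt (fun c : V → C => c v = c₀ ∧ ¬ ins c c₀ v (g.Q v z s ω)) : ℝ) := by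
    exact_mod_cast cnt_swap (fun (c : V → C) ω => c v = c₀ ∧ ¬ ins c c₀ v (g.Q v z s ω))
  have h3 : ∀ ω : Ω, (K : ℝ) ^ 2 *
      (cnt (fun c : V → C => c v = c₀ ∧ ¬ ins c c₀ v (g.Q v z s ω)) : ℝ) ≤ r * (K : ℝ) ^ N := by
    intro ω
    have h4 : cnt (fun c : V → C => c v = c₀ ∧ ¬ ins c c₀ v (g.Q v z s ω)) ≤
        ∑ i ∈ (g.Q v z s ω).filter fun i => i.1 ≠ v,
          cnt (fun c : V → C => c v = c₀ ∧ c i.1 = c₀) := by
      rw [cnt_eq]
      simp only [cnt_eq (fun c : V → C => c v = c₀ ∧ _)]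
      refine (Finset.card_le_card ?_).trans Finset.card_biUnion_le
      intro c hc
      rw [Finset.mem_filter] at hc
      obtain ⟨-, hc1, hc2⟩ := hc
      unfold ins at hc2
      push Not at hc2
      obtain ⟨i, hi1, hi2, hi3⟩ := hc2
      rw [Finset.mem_biUnion]
      exact ⟨i, Finset.mem_filter.2 ⟨hi1, hi2⟩,
        Finset.mem_filter.2 ⟨Finset.mem_univ _, hc1, hi3⟩⟩
    have h5 : (cnt (fun c : V → C => c v = c₀ ∧ ¬ ins c c₀ v (g.Q v z s ω)) : ℝ) ≤
        ∑ i ∈ (g.Q v z s ω).filter fun i => i.1 ≠ v,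
          (cnt (fun c : V → C => c v = c₀ ∧ c i.1 = c₀) : ℝ) := by
      exact_mod_cast h4
    calc (K : ℝ) ^ 2 * (cnt (fun c : V → C => c v = c₀ ∧ ¬ ins c c₀ v (g.Q v z s ω)) : ℝ) ≤
        (K : ℝ) ^ 2 * ∑ i ∈ (g.Q v z s ω).filter fun i => i.1 ≠ v,
          (cnt (fun c : V → C => c v = c₀ ∧ c i.1 = c₀) : ℝ) :=
          mul_le_mul_of_nonneg_left h5 (by positivity)
      _ = ∑ _i ∈ (g.Q v z s ω).filter fun i => i.1 ≠ v, (K : ℝ) ^ N := by
          rw [Finset.mul_sum]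
          refine Finset.sum_congr rfl fun i hi => ?_
          exact col2 c₀ (Finset.mem_filter.1 hi).2
      _ = ((g.Q v z s ω).filter fun i => i.1 ≠ v).card * (K : ℝ) ^ N := by
          rw [Finset.sum_const, nsmul_eq_mul]
      _ ≤ _ := by
          refine mul_le_mul_of_nonneg_right ?_ (by positivity)
          exact_mod_cast (Finset.card_filter_le _ _).trans (hr v z s ω)
  have h4 : (K : ℝ) ^ 2 * (D * Fintype.card Ω) ≤ 9 * (Fintype.card Ω * (r * (K : ℝ) ^ N)) := by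
    calc (K : ℝ) ^ 2 * (D * Fintype.card Ω) ≤ (K : ℝ) ^ 2 *
        ∑ c : V → C, 9 * (cnt (fun ω => c v = c₀ ∧ ¬ ins c c₀ v (g.Q v z s ω)) : ℝ) :=
          mul_le_mul_of_nonneg_left h1 (by positivity)
      _ = 9 * ∑ ω : Ω, (K : ℝ) ^ 2 *
          (cnt (fun c : V → C => c v = c₀ ∧ ¬ ins c c₀ v (g.Q v z s ω)) : ℝ) := by
          rw [← Finset.mul_sum, h2, ← Finset.mul_sum]
          ring
      _ ≤ 9 * ∑ _ω : Ω, r * (K : ℝ) ^ N :=
          mul_le_mul_of_nonneg_left (Finset.sum_le_sum fun ω _ => h3 ω) (by norm_num)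
      _ = _ := by rw [Finset.sum_const, Finset.card_univ, nsmul_eq_mul]
  have h5 : (K : ℝ) ^ 2 * D ≤ 9 * (r * (K : ℝ) ^ N) := by
    refine le_of_mul_le_mul_right ?_ hΩ
    linarith
  have h6 : 2 * ((K : ℝ) * D) ≤ (K : ℝ) ^ N := by
    have hC' : (18 : ℝ) * r ≤ K := by exact_mod_cast hC
    have h7 : (0 : ℝ) < (K : ℝ) ^ N := by positivity
    refine le_of_mul_le_mul_left ?_ hKr
    calc (K : ℝ) * (2 * ((K : ℝ) * D)) = 2 * ((K : ℝ) ^ 2 * D) := by ring
      _ ≤ 2 * (9 * (r * (K : ℝ) ^ N)) := by linarith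
      _ = 18 * r * (K : ℝ) ^ N := by ring
      _ ≤ K * (K : ℝ) ^ N := mul_le_mul_of_nonneg_right hC' h7.le
  have h7 := col1 c₀ v
  rw [← hA] at h7
  push_cast at h7
  linarith

variable [Fintype Y] [DecidableEq Y] [Fintype W] [DecidableEq W]

/-- For a table for which the verifier is correct, and with many roots without hit, many
colourings show many roots for which the prover wins inside. -/
theorem many_good [Nonempty Ω] [Nonempty V] (g : Game V Y W P Ω) (top : W) (c₀ : C) {r : ℕ}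
    (hr : ∀ v z s ω, (g.Q v z s ω).card ≤ r) (hC : 18 * r ≤ Fintype.card C)
    {z : V → Y → W} (hcor : Cor g top z)
    (hz : Fintype.card V < 8 * cnt (fun v => ¬ hit top (z v))) {t : ℕ}
    (ht : 32 * Fintype.card C * t ≤ Fintype.card V) :
    (Fintype.card C : ℝ) ^ Fintype.card V ≤ 32 * Fintype.card C *
      (cnt (fun c : V → C => t ≤ cnt (fun v =>
        v ∈ Finset.univ.filter (fun v => c v = c₀) ∧ Lp g top c c₀ v z)) : ℝ) := by
  classical
  set K := Fintype.card C with hK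
  set N := Fintype.card V with hN
  have hKpos : 0 < K := Fintype.card_pos_iff.2 ⟨c₀⟩
  have hNpos : 0 < N := Fintype.card_pos
  set NL : (V → C) → ℕ := fun c => cnt (fun v =>
    v ∈ Finset.univ.filter (fun v => c v = c₀) ∧ Lp g top c c₀ v z) with hNL
  have e1 : ∑ c : V → C, NL c = ∑ v : V, cnt (fun c : V → C => c v = c₀ ∧ Lp g top c c₀ v z) := by
    rw [cnt_swap]
    refine Finset.sum_congr rfl fun c _ => ?_
    simp only [hNL, Finset.mem_filter, Finset.mem_univ, true_and]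
  set H := cnt (fun v => ¬ hit top (z v)) with hH
  have e2 : (H : ℝ) * (K : ℝ) ^ N ≤ 2 * K * ∑ c : V → C, (NL c : ℝ) := by
    have e3 : ∑ c : V → C, (NL c : ℝ) =
        ∑ v : V, (cnt (fun c : V → C => c v = c₀ ∧ Lp g top c c₀ v z) : ℝ) := by
      exact_mod_cast e1
    rw [e3, Finset.mul_sum]
    refine cnt_mul_le (fun v => ¬ hit top (z v)) _ _ (fun v hv => ?_) fun v => by positivity
    obtain ⟨s, hs⟩ := (hcor v).1 hv
    exact many_col g top c₀ hr hC hv hs
  have e4 : ∀ c : V → C, (NL c : ℝ) ≤ t + N * (if t ≤ NL c then 1 else 0) := by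
    intro c
    have h5 : NL c ≤ N := cnt_le_card _
    split_ifs with h
    · have : (NL c : ℝ) ≤ N := by exact_mod_cast h5
      have : (0 : ℝ) ≤ t := Nat.cast_nonneg t
      linarith
    · have : (NL c : ℝ) ≤ t := by exact_mod_cast (not_le.1 h).le
      linarith
  set q := (cnt (fun c : V → C => t ≤ NL c) : ℝ) with hq
  have e5 : ∑ c : V → C, (NL c : ℝ) ≤ (K : ℝ) ^ N * t + N * q := by
    refine (Finset.sum_le_sum fun c _ => e4 c).trans (le_of_eq ?_)
    rw [Finset.sum_add_distrib, ← Finset.mul_sum, ← cnt_cast, Finset.sum_const,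
      Finset.card_univ, Fintype.card_fun, nsmul_eq_mul]
    push_cast
    rfl
  have e6 : (32 * K : ℝ) * t ≤ N := by exact_mod_cast ht
  have e7 : (N : ℝ) ≤ 8 * H := by exact_mod_cast hz.le
  have hq0 : 0 ≤ q := Nat.cast_nonneg _
  have hKr : (0 : ℝ) < K := by exact_mod_cast hKpos
  have hKN : (0 : ℝ) < (K : ℝ) ^ N := by positivity
  have hNr : (0 : ℝ) < N := by exact_mod_cast hNpos
  have e8 : (N : ℝ) * (K : ℝ) ^ N ≤ 16 * K * ((K : ℝ) ^ N * t + N * q) := by
    calc (N : ℝ) * (K : ℝ) ^ N ≤ 8 * H * (K : ℝ) ^ N :=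
          mul_le_mul_of_nonneg_right e7 hKN.le
      _ = 8 * (H * (K : ℝ) ^ N) := by ring
      _ ≤ 8 * (2 * K * ∑ c : V → C, (NL c : ℝ)) := by linarith
      _ ≤ 8 * (2 * K * ((K : ℝ) ^ N * t + N * q)) := by
          refine mul_le_mul_of_nonneg_left ?_ (by norm_num)
          exact mul_le_mul_of_nonneg_left e5 (by positivity)
      _ = _ := by ring
  have e9 : (K : ℝ) ^ N * (32 * K * t) ≤ (K : ℝ) ^ N * N :=
    mul_le_mul_of_nonneg_left e6 hKN.le
  refine le_of_mul_le_mul_left ?_ hNr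
  linarith

/-- **The main estimate.** -/
theorem count_cor [Nonempty Ω] [Nonempty V] (g : Game V Y W P Ω) (top : W) (c₀ : C) {r : ℕ}
    (hr : ∀ v z s ω, (g.Q v z s ω).card ≤ r) (hC : 18 * r ≤ Fintype.card C)
    (hY : 18 * r ≤ Fintype.card Y) (hY0 : 0 < Fintype.card Y)
    (hWY : Fintype.card W ≤ Fintype.card Y)
    (hno : Fintype.card (Y → W) ≤ 4 * cnt (fun x : Y → W => ¬ hit top x)) :
    (cnt (fun z : V → Y → W => Cor g top z) : ℝ) ≤
      (Fintype.card (Y → W) : ℝ) ^ Fintype.card V *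
        (32 * Fintype.card C * (2 / 3) ^ (Fintype.card V / (32 * Fintype.card C)) +
          (3 / 4) ^ (Fintype.card V / 8)) := by
  classical
  set K := Fintype.card C with hK
  set N := Fintype.card V with hN
  set X := Fintype.card (Y → W) with hX
  set t := N / (32 * K) with ht
  have hKpos : 0 < K := Fintype.card_pos_iff.2 ⟨c₀⟩
  have hne : Nonempty (Y → W) := ⟨fun _ => top⟩
  have hKr : (0 : ℝ) < K := by exact_mod_cast hKpos
  have hKN : (0 : ℝ) < (K : ℝ) ^ N := by positivity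
  set S2 := cnt (fun z : V → Y → W => Cor g top z ∧
    N < 8 * cnt (fun v => ¬ hit top (z v))) with hS2
  have h1 : (cnt (fun z : V → Y → W => 8 * cnt (fun v => ¬ hit top (z v)) ≤ N) : ℝ) ≤
    (X : ℝ) ^ N * (3 / 4) ^ (N / 8) :=
    count_few (V := V) (X := Y → W) (fun x => ¬ hit top x) hno
  -- for each colouring
  have h2 : ∀ c : V → C, (cnt (fun z : V → Y → W =>
      (∀ v ∈ Finset.univ.filter (fun v => c v = c₀), ¬ Bp g top c c₀ v z) ∧
      t ≤ cnt (fun v => v ∈ Finset.univ.filter (fun v => c v = c₀) ∧ Lp g top c c₀ v z)) : ℝ) ≤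
      (X : ℝ) ^ N * (2 / 3) ^ t := by
    intro c
    refine count_le (V := V) (X := Y → W) (Finset.univ.filter (fun v => c v = c₀))
      (fun v z => Bp g top c c₀ v z) (fun v z => Lp g top c c₀ v z) ?_ ?_
      (not_both g top c c₀) ?_ t
    · intro v _ u hu hne z x
      exact Bp_update g top (Finset.mem_filter.1 hu).2 hne z x
    · intro v _ u hu hne z x
      exact Lp_update g top (Finset.mem_filter.1 hu).2 hne z x
    · intro v _ z
      exact le_two_mul g top c c₀ hr hY hY0 hWY v z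
  have h3 := cnt_mul_le (fun z : V → Y → W => Cor g top z ∧
      N < 8 * cnt (fun v => ¬ hit top (z v)))
    (fun z => 32 * K * (cnt (fun c : V → C => Cor g top z ∧ t ≤ cnt (fun v =>
        v ∈ Finset.univ.filter (fun v => c v = c₀) ∧ Lp g top c c₀ v z)) : ℝ)) ((K : ℝ) ^ N)
    (fun z hz => by
      have h4 := many_good g top c₀ hr hC hz.1 hz.2 (Nat.mul_div_le N (32 * K))
      refine h4.trans (mul_le_mul_of_nonneg_left ?_ (by positivity))
      exact Nat.cast_le.2 (cnt_mono fun c hc => ⟨hz.1, hc⟩)) fun z => by positivity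
  have h5 : ∑ z : V → Y → W, (cnt (fun c : V → C => Cor g top z ∧ t ≤ cnt (fun v =>
        v ∈ Finset.univ.filter (fun v => c v = c₀) ∧ Lp g top c c₀ v z)) : ℝ) ≤
      (K : ℝ) ^ N * ((X : ℝ) ^ N * (2 / 3) ^ t) := by
    have h6 : ∑ z : V → Y → W, (cnt (fun c : V → C => Cor g top z ∧ t ≤ cnt (fun v =>
        v ∈ Finset.univ.filter (fun v => c v = c₀) ∧ Lp g top c c₀ v z)) : ℝ) =
        ∑ c : V → C, (cnt (fun z : V → Y → W => Cor g top z ∧ t ≤ cnt (fun v =>
        v ∈ Finset.univ.filter (fun v => c v = c₀) ∧ Lp g top c c₀ v z)) : ℝ) := by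
      exact_mod_cast cnt_swap (fun (z : V → Y → W) (c : V → C) => Cor g top z ∧ t ≤ cnt (fun v =>
        v ∈ Finset.univ.filter (fun v => c v = c₀) ∧ Lp g top c c₀ v z))
    rw [h6]
    calc _ ≤ ∑ _c : V → C, (X : ℝ) ^ N * (2 / 3) ^ t := by
          refine Finset.sum_le_sum fun c _ => le_trans ?_ (h2 c)
          exact Nat.cast_le.2 (cnt_mono fun z hz =>
            ⟨fun v _ => cor_not_Bp hz.1 c c₀ v, hz.2⟩)
      _ = _ := by
          rw [Finset.sum_const, Finset.card_univ, Fintype.card_fun, nsmul_eq_mul]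
          push_cast
          rfl
  rw [← Finset.mul_sum] at h3
  have h7 : (S2 : ℝ) ≤ (X : ℝ) ^ N * (32 * K * (2 / 3) ^ t) := by
    refine le_of_mul_le_mul_right ?_ hKN
    calc (S2 : ℝ) * (K : ℝ) ^ N ≤ _ := h3
      _ ≤ 32 * K * ((K : ℝ) ^ N * ((X : ℝ) ^ N * (2 / 3) ^ t)) :=
          mul_le_mul_of_nonneg_left h5 (by positivity)
      _ = _ := by ring
  have h8 : (cnt (fun z : V → Y → W => Cor g top z) : ℝ) ≤
      S2 + cnt (fun z : V → Y → W => 8 * cnt (fun v => ¬ hit top (z v)) ≤ N) := by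
    rw [← Nat.cast_add]
    refine Nat.cast_le.2 (cnt_le_add fun z hz => ?_)
    by_cases h : 8 * cnt (fun v => ¬ hit top (z v)) ≤ N
    · exact Or.inr h
    · exact Or.inl ⟨hz, not_le.1 h⟩
  calc _ ≤ (S2 : ℝ) + _ := h8
    _ ≤ (X : ℝ) ^ N * (32 * K * (2 / 3) ^ t) + (X : ℝ) ^ N * (3 / 4) ^ (N / 8) := add_le_add h7 h1
    _ = _ := by ring

end Pool.Agent.J6H49.IP
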