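import Pool.Agent.J6H49.IP.Avg

/-!
# Verifiers with few questions are wrong somewhere, except for very few tables
-/

set_option autoImplicit false

namespace Pool.Agent.J6H49.IP

/-- A family of games, one for each root `v` in `V`. The table `z` gives, for each root, a function
from `Y` to `W`. For the strategy `s` and the outcome `ω` of the coins, `acc` tells if the prover
wins, `Q` is the set of the questions to the table. -/
structure Game (V Y W P Ω : Type) where
  acc : V → (V → Y → W) → P → Ω → Prop
  Q : V → (V → Y → W) → P → Ω → Finset (V × Y)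
  stab : ∀ v z z' s ω, (∀ i ∈ Q v z s ω, z' i.1 i.2 = z i.1 i.2) →
    Q v z' s ω = Q v z s ω ∧ (acc v z' s ω ↔ acc v z s ω)

section

variable {V Y W P Ω C : Type}

/-- the value `top` occurs -/
def hit (top : W) (x : Y → W) : Prop := ∃ y, x y = top

/-- all questions are about `v` or about roots outside of the hidden set -/
def ins (c : V → C) (c₀ : C) (v : V) (Q : Finset (V × Y)) : Prop := ∀ i ∈ Q, i.1 = v ∨ c i.1 ≠ c₀

variable [Fintype Ω]

/-- correctness of the verifier for the table `z` -/
def Cor (g : Game V Y W P Ω) (top : W) (z : V → Y → W) : Prop :=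
  ∀ v, (¬ hit top (z v) → ∃ s, 2 * Fintype.card Ω ≤ 3 * cnt (g.acc v z s)) ∧
    (hit top (z v) → ∀ s, 3 * cnt (g.acc v z s) ≤ Fintype.card Ω)

def Lp (g : Game V Y W P Ω) (top : W) (c : V → C) (c₀ : C) (v : V) (z : V → Y → W) : Prop :=
  ¬ hit top (z v) ∧ ∃ s, 5 * Fintype.card Ω ≤
    9 * cnt (fun ω => g.acc v z s ω ∧ ins c c₀ v (g.Q v z s ω))

def Bp (g : Game V Y W P Ω) (top : W) (c : V → C) (c₀ : C) (v : V) (z : V → Y → W) : Prop :=
  hit top (z v) ∧ ∃ s, Fintype.card Ω <
    3 * cnt (fun ω => g.acc v z s ω ∧ ins c c₀ v (g.Q v z s ω))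

theorem inv1 (g : Game V Y W P Ω) {c : V → C} {c₀ : C} {v : V} {z z' : V → Y → W} {s : P} {ω : Ω}
    (h : ∀ w, (w = v ∨ c w ≠ c₀) → z' w = z w)
    (h1 : g.acc v z s ω ∧ ins c c₀ v (g.Q v z s ω)) :
    g.acc v z' s ω ∧ ins c c₀ v (g.Q v z' s ω) := by
  obtain ⟨h2, h3⟩ := g.stab v z z' s ω fun i hi => by rw [h i.1 (h1.2 i hi)]
  rw [h2]
  exact ⟨h3.2 h1.1, h1.2⟩

theorem inv2 (g : Game V Y W P Ω) {c : V → C} {c₀ : C} {v : V} {z z' : V → Y → W} (s : P)
    (h : ∀ w, (w = v ∨ c w ≠ c₀) → z' w = z w) :
    (fun ω => g.acc v z s ω ∧ ins c c₀ v (g.Q v z s ω)) =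
      fun ω => g.acc v z' s ω ∧ ins c c₀ v (g.Q v z' s ω) := by
  funext ω
  exact propext ⟨inv1 g h, inv1 g fun w hw => (h w hw).symm⟩

theorem cor_not_Bp {g : Game V Y W P Ω} {top : W} {z : V → Y → W} (h : Cor g top z) (c : V → C)
    (c₀ : C) (v : V) : ¬ Bp g top c c₀ v z := by
  rintro ⟨h1, s, h2⟩
  have h3 := (h v).2 h1 s
  have h4 : cnt (fun ω => g.acc v z s ω ∧ ins c c₀ v (g.Q v z s ω)) ≤ cnt (g.acc v z s) :=
    cnt_mono fun ω h => h.1
  omega

theorem not_both (g : Game V Y W P Ω) (top : W) (c : V → C) (c₀ : C) (v : V) (z : V → Y → W) :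
    ¬ (Bp g top c c₀ v z ∧ Lp g top c c₀ v z) := fun h => h.2.1 h.1.1

variable [DecidableEq V]

theorem Lp_update (g : Game V Y W P Ω) (top : W) {c : V → C} {c₀ : C} {v u : V} (hu : c u = c₀)
    (hne : u ≠ v) (z : V → Y → W) (x : Y → W) :
    Lp g top c c₀ v (Function.update z u x) ↔ Lp g top c c₀ v z := by
  have h : ∀ w, (w = v ∨ c w ≠ c₀) → z w = Function.update z u x w := by
    intro w hw
    rw [Function.update_of_ne]
    rintro rfl
    rcases hw with h | h
    · exact hne h
    · exact h hu
  unfold Lp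
  rw [Function.update_of_ne hne.symm]
  simp only [inv2 g _ h]

theorem Bp_update (g : Game V Y W P Ω) (top : W) {c : V → C} {c₀ : C} {v u : V} (hu : c u = c₀)
    (hne : u ≠ v) (z : V → Y → W) (x : Y → W) :
    Bp g top c c₀ v (Function.update z u x) ↔ Bp g top c c₀ v z := by
  have h : ∀ w, (w = v ∨ c w ≠ c₀) → z w = Function.update z u x w := by
    intro w hw
    rw [Function.update_of_ne]
    rintro rfl
    rcases hw with h | h
    · exact hne h
    · exact h hu
  unfold Bp
  rw [Function.update_of_ne hne.symm]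
  simp only [inv2 g _ h]

variable [Fintype V] [Fintype Y] [DecidableEq Y] [Fintype W] [DecidableEq W]

/-- the number of elements asked about with probability at least `1 / 9` -/
theorem few_bad [Nonempty Ω] {r : ℕ} (v : V) (Q : Ω → Finset (V × Y)) (hQ : ∀ ω, (Q ω).card ≤ r) :
    cnt (fun y : Y => Fintype.card Ω ≤ 9 * cnt (fun ω => (v, y) ∈ Q ω)) ≤ 9 * r := by
  classical
  have h1 := cnt_mul_le (fun y : Y => Fintype.card Ω ≤ 9 * cnt (fun ω => (v, y) ∈ Q ω))
    (fun y => 9 * (cnt (fun ω => (v, y) ∈ Q ω) : ℝ)) (Fintype.card Ω)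
    (fun y hy => by exact_mod_cast hy) (fun y => by positivity)
  have h2 : ∑ y : Y, cnt (fun ω => (v, y) ∈ Q ω) ≤ Fintype.card Ω * r := by
    rw [cnt_swap]
    calc ∑ ω : Ω, cnt (fun y : Y => (v, y) ∈ Q ω) ≤ ∑ _ω : Ω, r := by
          refine Finset.sum_le_sum fun ω _ => ?_
          refine le_trans ?_ (hQ ω)
          rw [cnt_eq]
          refine Finset.card_le_card_of_injOn (fun y => (v, y)) ?_ ?_
          · intro y hy
            simpa using hy
          · intro y _ y' _ h
            exact (Prod.ext_iff.1 h).2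
      _ = _ := by rw [Finset.sum_const, smul_eq_mul, Finset.card_univ]
  have h3 : ∑ y : Y, (cnt (fun ω => (v, y) ∈ Q ω) : ℝ) ≤ Fintype.card Ω * r := by
    exact_mod_cast h2
  rw [← Finset.mul_sum] at h1
  have hΩ : (0 : ℝ) < Fintype.card Ω := by exact_mod_cast Fintype.card_pos
  have h4 : (cnt (fun y : Y => Fintype.card Ω ≤ 9 * cnt (fun ω => (v, y) ∈ Q ω)) : ℝ) *
      Fintype.card Ω ≤ 9 * r * Fintype.card Ω := by
    linarith
  have h5 := le_of_mul_le_mul_right h4 hΩ
  exact_mod_cast h5

theorem le_two_mul [Nonempty Ω] (g : Game V Y W P Ω) (top : W) (c : V → C) (c₀ : C) {r : ℕ}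
    (hr : ∀ v z s ω, (g.Q v z s ω).card ≤ r) (hY : 18 * r ≤ Fintype.card Y)
    (hY0 : 0 < Fintype.card Y)
    (hWY : Fintype.card W ≤ Fintype.card Y) (v : V) (z : V → Y → W) :
    cnt (fun x => Lp g top c c₀ v (Function.update z v x)) ≤
      2 * cnt (fun x => Bp g top c c₀ v (Function.update z v x)) := by
  classical
  rw [cnt_eq, cnt_eq]
  set LS := Finset.univ.filter fun x => Lp g top c c₀ v (Function.update z v x) with hLS
  set BS := Finset.univ.filter fun x => Bp g top c c₀ v (Function.update z v x) with hBS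
  have hs : ∀ x ∈ LS, ∃ s, 5 * Fintype.card Ω ≤
      9 * cnt (fun ω => g.acc v (Function.update z v x) s ω ∧
        ins c c₀ v (g.Q v (Function.update z v x) s ω)) := by
    intro x hx
    rw [hLS, Finset.mem_filter] at hx
    exact hx.2.2
  rcases LS.eq_empty_or_nonempty with hemp | ⟨x₀, hx₀⟩
  · rw [hemp]
    simp
  have : Nonempty P := ⟨(hs x₀ hx₀).choose⟩
  choose! s hs using hs
  set gd : (Y → W) → Finset Y := fun x => Finset.univ.filter fun y : Y =>
    ¬ Fintype.card Ω ≤ 9 * cnt (fun ω => (v, y) ∈ g.Q v (Function.update z v x) (s x) ω) with hgd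
  have hgd2 : ∀ x, Fintype.card Y ≤ 2 * (gd x).card := by
    intro x
    have h1 := few_bad v (fun ω => g.Q v (Function.update z v x) (s x) ω)
      (fun ω => hr v _ _ ω)
    rw [cnt_eq] at h1
    have h2 := Finset.card_filter_add_card_filter_not (s := (Finset.univ : Finset Y))
      (fun y : Y => Fintype.card Ω ≤ 9 * cnt (fun ω =>
        (v, y) ∈ g.Q v (Function.update z v x) (s x) ω))
    rw [Finset.card_univ] at h2
    have h3 : (gd x).card = (Finset.univ.filter fun y : Y => ¬ Fintype.card Ω ≤
      9 * cnt (fun ω => (v, y) ∈ g.Q v (Function.update z v x) (s x) ω)).card := rfl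
    omega
  set T := LS.sigma gd with hT
  have hT1 : LS.card * Fintype.card Y ≤ 2 * T.card := by
    rw [hT, Finset.card_sigma, Finset.mul_sum]
    calc LS.card * Fintype.card Y = ∑ _x ∈ LS, Fintype.card Y := by
          rw [Finset.sum_const, smul_eq_mul]
      _ ≤ _ := Finset.sum_le_sum fun x _ => hgd2 x
  have hupd : ∀ (x : Y → W) (y : Y), x ∈ LS → y ∈ gd x → Function.update x y top ∈ BS := by
    intro x y hx hy
    have h1 := hs x hx
    rw [hBS, Finset.mem_filter]
    refine ⟨Finset.mem_univ _, ⟨y, by rw [Function.update_self, Function.update_self]⟩,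
      s x, ?_⟩
    simp only [hgd, Finset.mem_filter, Finset.mem_univ, true_and, not_le] at hy
    have h2 := cnt_le_add (E := fun ω => g.acc v (Function.update z v x) (s x) ω ∧
        ins c c₀ v (g.Q v (Function.update z v x) (s x) ω))
      (E' := fun ω => g.acc v (Function.update z v (Function.update x y top)) (s x) ω ∧
        ins c c₀ v (g.Q v (Function.update z v (Function.update x y top)) (s x) ω))
      (E'' := fun ω => (v, y) ∈ g.Q v (Function.update z v x) (s x) ω) (fun ω h => by
        by_cases h3 : (v, y) ∈ g.Q v (Function.update z v x) (s x) ω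
        · exact Or.inr h3
        · left
          obtain ⟨h4, h5⟩ := g.stab v (Function.update z v x)
            (Function.update z v (Function.update x y top)) (s x) ω (fun i hi => by
              by_cases h6 : i.1 = v
              · rw [h6, Function.update_self, Function.update_self, Function.update_of_ne]
                rintro rfl
                apply h3
                have h7 : (v, i.2) = i := Prod.ext h6.symm rfl
                rw [h7]
                exact hi
              · rw [Function.update_of_ne h6, Function.update_of_ne h6])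
          rw [h4]
          exact ⟨h5.2 h.1, h.2⟩)
    omega
  have hT2 : T.card ≤ BS.card * Fintype.card W := by
    rw [← Finset.card_univ (α := W), ← Finset.card_product]
    refine Finset.card_le_card_of_injOn (fun p => (Function.update p.1 p.2 top, p.1 p.2)) ?_ ?_
    · rintro ⟨x, y⟩ hp
      rw [hT, Finset.mem_coe, Finset.mem_sigma] at hp
      rw [Finset.mem_coe, Finset.mem_product]
      exact ⟨hupd x y hp.1 hp.2, Finset.mem_univ _⟩
    · rintro ⟨x, y⟩ hp ⟨x', y'⟩ hp' he
      rw [hT, Finset.mem_coe, Finset.mem_sigma] at hp hp'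
      simp only [Prod.mk.injEq] at he
      obtain ⟨he1, he2⟩ := he
      have hn : ∀ x ∈ LS, ∀ y, x y ≠ top := by
        intro x hx y hxy
        rw [hLS, Finset.mem_filter] at hx
        apply hx.2.1
        exact ⟨y, by rw [Function.update_self]; exact hxy⟩
      have hyy : y = y' := by
        by_contra hne
        have h1 := congrFun he1 y
        rw [Function.update_self, Function.update_of_ne hne] at h1
        exact hn x' hp'.1 y h1.symm
      subst hyy
      have hxx : x = x' := by
        funext y''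
        by_cases h : y'' = y
        · rw [h]
          exact he2
        · have h1 := congrFun he1 y''
          rwa [Function.update_of_ne h, Function.update_of_ne h] at h1
      rw [hxx]
  have h1 : LS.card * Fintype.card Y ≤ 2 * BS.card * Fintype.card Y := by
    calc LS.card * Fintype.card Y ≤ 2 * T.card := hT1
      _ ≤ 2 * (BS.card * Fintype.card W) := Nat.mul_le_mul_left _ hT2
      _ ≤ 2 * (BS.card * Fintype.card Y) := Nat.mul_le_mul_left _ (Nat.mul_le_mul_left _ hWY)
      _ = _ := by ring
  exact Nat.le_of_mul_le_mul_right h1 hY0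

end

end Pool.Agent.J6H49.IP
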