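import Pool.Agent.J6H49.IP.Main

/-!
# Side information of subexponential density inside of the collapse
-/

set_option autoImplicit false

namespace Pool.Agent.J6H49.IP

open Pool.Agent.NPC Pool.Agent.H628R3.RO Pool.Agent.J6H49.AM Filter Pool.Agent.J6H49.OP
open MeasureTheory Pool.Agent.J6H54.RO
open Pool.Agent.TH678.GC (join)
open Pool.Agent.TH678.RS (bt)
open Pool.Agent.Y626.WX (Cp exists_cp)
open Pool.Agent.J6H49.PHC (oracle)

theorem bound2 {M : Alg} {p : Polynomial ℕ} {n D : ℕ}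
    (h : 64 * (18 * rq M p n + 1) * (2 * n + 2 + (La M p n + 2) * D) ≤ 2 ^ n) :
    (2 ^ (La M p n + 2)) ^ D * eps M p n ≤ (1 / 2) ^ n := by
  set K := 18 * rq M p n + 1 with hK
  set E := 2 * n + 2 + (La M p n + 2) * D with hE
  have hK1 : 1 ≤ K := by omega
  have hE2 : 2 ≤ E := by omega
  have h1 : 2 * E ≤ 2 ^ n / (32 * K) := by
    rw [Nat.le_div_iff_mul_le (by omega)]
    calc 2 * E * (32 * K) = 64 * K * E := by ring
      _ ≤ 2 ^ n := h
  have h2 : 3 * E ≤ 2 ^ n / 8 := by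
    rw [Nat.le_div_iff_mul_le (by norm_num)]
    have : E ≤ K * E := Nat.le_mul_of_pos_left _ hK1
    nlinarith
  have h3 : 32 * K ≤ 2 ^ n := by
    have : K * 2 ≤ K * E := Nat.mul_le_mul_left _ hE2
    nlinarith
  have h3' : (32 : ℝ) * (K : ℝ) ≤ 2 ^ n := by exact_mod_cast h3
  have h4 : eps M p n ≤ 2 * 2 ^ n * (1 / 2) ^ E := by
    unfold eps
    rw [← hK]
    have h5 := two_thirds h1
    have h6 := three_quarters h2
    have h7 : (0 : ℝ) < (1 / 2) ^ E := by positivity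
    have h8 : (1 : ℝ) ≤ 2 ^ n := one_le_pow₀ (by norm_num)
    calc 32 * ((K : ℕ) : ℝ) * (2 / 3) ^ (2 ^ n / (32 * K)) + (3 / 4) ^ (2 ^ n / 8) ≤
        2 ^ n * (1 / 2) ^ E + 1 * (1 / 2) ^ E := by
          refine add_le_add (mul_le_mul h3' h5 (by positivity) (by positivity)) ?_
          rw [one_mul]
          exact h6
      _ ≤ 2 ^ n * (1 / 2) ^ E + 2 ^ n * (1 / 2) ^ E := by
          have := mul_le_mul_of_nonneg_right h8 h7.le
          linarith
      _ = _ := by ring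
  have e0 : ∀ k : ℕ, (2 : ℝ) ^ k * (1 / 2) ^ k = 1 := by
    intro k
    rw [← mul_pow]
    norm_num
  calc (2 ^ (La M p n + 2)) ^ D * eps M p n ≤
      (2 ^ (La M p n + 2)) ^ D * (2 * 2 ^ n * (1 / 2) ^ E) :=
        mul_le_mul_of_nonneg_left h4 (by positivity)
    _ = (2 ^ ((La M p n + 2) * D) * (1 / 2) ^ ((La M p n + 2) * D)) *
        (2 ^ n * (1 / 2) ^ n) * (1 / 2) ^ n * (1 / 2) := by
        rw [hE, ← pow_mul, pow_add, pow_add, two_mul n, pow_add]
        ring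
    _ = (1 / 2) ^ n * (1 / 2) := by rw [e0, e0]; ring
    _ ≤ (1 / 2) ^ n := by
        have : (0 : ℝ) < (1 / 2) ^ n := by positivity
        linarith

theorem ev_sizes2 (M : Alg) (p : Polynomial ℕ) : ∀ᶠ n : ℕ in atTop,
    64 * (18 * rq M p n + 1) * (2 * n + 2 + (La M p n + 2) * (2 * De n)) ≤ 2 ^ n := by
  set I : Polynomial ℕ := 2 * Polynomial.X + 1 + (2 * p + 1 + p * (2 * p + 1)) with hI
  have hIe : ∀ n, I.eval n = il n (p.eval n) := by
    intro n
    simp only [hI, il, Polynomial.eval_add, Polynomial.eval_mul, Polynomial.eval_ofNat,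
      Polynomial.eval_X, Polynomial.eval_one]
  set Q : Polynomial ℕ := 128 * (18 * ((p + 1) * M.p.comp I) + 1) *
    (2 * Polynomial.X + 2 + ((lb M).comp I + 2)) with hQ
  have hQe : ∀ n, Q.eval n = 128 * (18 * rq M p n + 1) * (2 * n + 2 + (La M p n + 2)) := by
    intro n
    simp only [hQ, rq, La, Polynomial.eval_add, Polynomial.eval_mul, Polynomial.eval_ofNat,
      Polynomial.eval_comp, Polynomial.eval_X, Polynomial.eval_one, hIe]
  obtain ⟨N, hN⟩ := poly_le_two_pow (Q ^ 2)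
  filter_upwards [eventually_ge_atTop N, eventually_ge_atTop 9] with n hn h9
  have h1 := hN n hn
  rw [Polynomial.eval_pow] at h1
  have h2 : Q.eval n ^ 2 ≤ 2 ^ n := by omega
  have h3 : 3 ≤ Nat.sqrt n := by
    rw [Nat.le_sqrt]
    omega
  have h4 : Nat.sqrt n * Nat.sqrt n ≤ n := Nat.sqrt_le n
  have h5 : De n ^ 2 ≤ 2 ^ n := by
    unfold De
    rw [← pow_mul]
    refine Nat.pow_le_pow_right (by norm_num) ?_
    nlinarith
  have h6 : Q.eval n * De n ≤ 2 ^ n := by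
    by_contra hcon
    push Not at hcon
    have h7 : 2 ^ n * 2 ^ n < (Q.eval n * De n) * (Q.eval n * De n) :=
      Nat.mul_lt_mul'' hcon hcon
    have h8 : (Q.eval n * De n) * (Q.eval n * De n) ≤ 2 ^ n * 2 ^ n := by
      calc (Q.eval n * De n) * (Q.eval n * De n) = Q.eval n ^ 2 * De n ^ 2 := by ring
        _ ≤ _ := Nat.mul_le_mul h2 h5
    omega
  refine le_trans ?_ h6
  rw [hQe]
  have hD : 1 ≤ De n := Nat.one_le_two_pow
  have h7 : 2 * n + 2 ≤ (2 * n + 2) * De n := Nat.le_mul_of_pos_right _ hD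
  calc 64 * (18 * rq M p n + 1) * (2 * n + 2 + (La M p n + 2) * (2 * De n)) ≤
      64 * (18 * rq M p n + 1) * ((2 * n + 2) * De n + (La M p n + 2) * (2 * De n)) :=
        Nat.mul_le_mul_left _ (by omega)
    _ ≤ 64 * (18 * rq M p n + 1) * (2 * ((2 * n + 2) * De n) + 2 * ((La M p n + 2) * De n)) := by
        refine Nat.mul_le_mul_left _ ?_
        have : (La M p n + 2) * (2 * De n) = 2 * ((La M p n + 2) * De n) := by ring
        omega
    _ = _ := by ring

variable {α : ℕ → ℕ} {g : ℕ → Pool.Agent.H620R2.Gauge.SAlg × Polynomial ℕ}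
  {S : ℕ → Polynomial ℕ} {Φ : Oracle → Oracle}

/-- some pair of side tables makes the verifier correct for the length `n` -/
def Ev2 (Φ : Oracle → Oracle) (C : Oracle) (M : Alg) (p : Polynomial ℕ) (n Λ D : ℕ) :
    Set Oracle :=
  {A | ∃ f : Tb Λ D × Tb Λ D, Good Φ (join C (tbl f.1)) (tbl f.2) M p n A}

theorem meas_Ev2 (hc : Cp g S (bt α) Φ) (C : Oracle) (M : Alg) (p : Polynomial ℕ) (n Λ D : ℕ) :
    MeasurableSet (Ev2 Φ C M p n Λ D) := by
  have : Ev2 Φ C M p n Λ D = ⋃ f : Tb Λ D × Tb Λ D,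
      {A | Good Φ (join C (tbl f.1)) (tbl f.2) M p n A} := by
    ext A
    simp [Ev2]
  rw [this]
  exact MeasurableSet.iUnion fun f => meas_good hc _ _ M p n

theorem prob_Ev2 (hc : Cp g S (bt α) Φ) (C : Oracle) (M : Alg) (p : Polynomial ℕ)
    {n Λ D : ℕ} (hn : 1 ≤ n) (hl : (lb M).eval (il n (p.eval n)) ≤ lam α n)
    (hr : 18 * rq M p n ≤ 2 ^ n) :
    prob (Ev2 Φ C M p n Λ D) ≤ (2 ^ (Λ + 2)) ^ (2 * D) * eps M p n := by
  refine prob_le_of_count (wp_inj n) (meas_Ev2 hc C M p n Λ D) fun A => ?_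
  have heps : 0 ≤ eps M p n := by
    unfold eps
    positivity
  have h1 : (cnt (fun ω : Ix n → Bool =>
      Pool.Agent.J6H7.RO.ovw wp ω A ∈ Ev2 Φ C M p n Λ D) : ℝ) ≤
      ∑ f : Tb Λ D × Tb Λ D, (cnt (fun ω : Ix n → Bool =>
        Good Φ (join C (tbl f.1)) (tbl f.2) M p n (Pool.Agent.J6H7.RO.ovw wp ω A)) : ℝ) := by
    exact_mod_cast cnt_exists (fun (f : Tb Λ D × Tb Λ D) (ω : Ix n → Bool) =>
      Good Φ (join C (tbl f.1)) (tbl f.2) M p n (Pool.Agent.J6H7.RO.ovw wp ω A))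
  refine h1.trans ((Finset.sum_le_sum fun f _ =>
    few_correct hc (join C (tbl f.1)) A (tbl f.2) M p hn hl hr).trans ?_)
  rw [Finset.sum_const, Finset.card_univ, nsmul_eq_mul, Fintype.card_prod]
  have h2 : (Fintype.card (Tb Λ D) : ℝ) ≤ (2 ^ (Λ + 2)) ^ D := by exact_mod_cast card_Tb Λ D
  have h3 : ((Fintype.card (Tb Λ D) * Fintype.card (Tb Λ D) : ℕ) : ℝ) ≤
      (2 ^ (Λ + 2)) ^ (2 * D) := by
    push_cast
    rw [two_mul, pow_add]
    exact mul_le_mul h2 h2 (by positivity) (by positivity)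
  calc ((Fintype.card (Tb Λ D) * Fintype.card (Tb Λ D) : ℕ) : ℝ) *
      (2 ^ Fintype.card (Ix n) * eps M p n) ≤
      (2 ^ (Λ + 2)) ^ (2 * D) * (2 ^ Fintype.card (Ix n) * eps M p n) :=
        mul_le_mul_of_nonneg_right h3 (mul_nonneg (by positivity) heps)
    _ = _ := by ring

theorem ae_one2 (hc : Cp g S (bt α) Φ) (hα : Monotone α) (hα' : Tendsto α atTop atTop)
    (C : Oracle) (M : Alg) (p : Polynomial ℕ) : ∀ᵐ A ∂randomOracle,
      ∀ᶠ n : ℕ in atTop, A ∉ Ev2 Φ C M p n (La M p n) (De n) := by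
  obtain ⟨n₀, h0⟩ := eventually_atTop.1 (((ev_sizes2 M p).and (ev_late hα hα' M p)).and
    (eventually_ge_atTop 1))
  have h1 : ∀ n, prob (Ev2 Φ C M p (n + n₀) (La M p (n + n₀)) (De (n + n₀))) ≤ (1 / 2) ^ n := by
    intro n
    obtain ⟨⟨h2, h3⟩, h4⟩ := h0 (n + n₀) (by omega)
    have h5 : 18 * rq M p (n + n₀) ≤ 2 ^ (n + n₀) := by
      set K := 18 * rq M p (n + n₀) with hK
      set E := 2 * (n + n₀) + 2 + (La M p (n + n₀) + 2) * (2 * De (n + n₀)) with hE
      have : 1 ≤ E := by omega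
      have : (K + 1) * 1 ≤ (K + 1) * E := Nat.mul_le_mul_left _ this
      nlinarith
    refine (prob_Ev2 hc C M p h4 h3 h5).trans ((bound2 h2).trans ?_)
    exact pow_le_pow_of_le_one (by norm_num) (by norm_num) (by omega)
  have h2 : ∑' n, randomOracle (Ev2 Φ C M p (n + n₀) (La M p (n + n₀)) (De (n + n₀))) ≠ ⊤ := by
    have hs : Summable (fun n : ℕ => (1 / 2 : ℝ) ^ n) :=
      summable_geometric_of_lt_one (by norm_num) (by norm_num)
    have h3 : ∀ n, randomOracle (Ev2 Φ C M p (n + n₀) (La M p (n + n₀)) (De (n + n₀))) ≤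
        ENNReal.ofReal ((1 / 2) ^ n) := fun n => (prob_le_iff (by positivity)).1 (h1 n)
    exact ne_top_of_le_ne_top hs.tsum_ofReal_ne_top (ENNReal.tsum_le_tsum h3)
  filter_upwards [ae_eventually_notMem h2] with A hA
  obtain ⟨a, ha⟩ := eventually_atTop.1 hA
  filter_upwards [eventually_ge_atTop (a + n₀)] with n hn
  have h4 := ha (n - n₀) (by omega)
  rwa [Nat.sub_add_cancel (by omega)] at h4

/-- **The theorem with side information inside and outside of the collapse.** -/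
theorem ae_main2 (hc : Cp g S (bt α) Φ) (hα : Monotone α) (hα' : Tendsto α atTop atTop)
    (C : Oracle) : ∀ᵐ A ∂randomOracle, ∀ T₁ T₂ : Oracle, SubexpDense T₁ → SubexpDense T₂ →
      ¬ IsIPio (join (oracle Φ (join C T₁) A) T₂) (HL A)ᶜ := by
  have h : ∀ᵐ A ∂randomOracle, ∀ q : Alg × Polynomial ℕ,
      ∀ᶠ n : ℕ in atTop, A ∉ Ev2 Φ C q.1 q.2 n (La q.1 q.2 n) (De n) := by
    rw [ae_all_iff]
    exact fun q => ae_one2 hc hα hα' C q.1 q.2
  filter_upwards [h] with A hA T₁ T₂ hT₁ hT₂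
  rintro ⟨V, p, ⟨M, hM⟩, hx⟩
  obtain ⟨n, h1, h2, h3, h3'⟩ := (hx.and_eventually ((hA (M, p)).and
    ((ev_dense hT₁ M p).and (ev_dense hT₂ M p)))).exists
  obtain ⟨f₁, hf₁⟩ := exists_tbl h3
  obtain ⟨f₂, hf₂⟩ := exists_tbl h3'
  refine h2 ⟨(f₁, f₂), fun x hxn => ?_⟩
  have h4 := h1 x hxn
  rw [← val_eq hM] at h4
  refine (correct_congr (M := M) (p := p) Iff.rfl fun q hq => ?_).2 h4
  have hq' : q.length ≤ La M p n := by
    unfold La
    rw [← hxn]
    exact hq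
  match q with
  | [] => rfl
  | false :: s =>
    rw [List.length_cons] at hq'
    show oracle Φ (join C (tbl f₁)) A s = oracle Φ (join C T₁) A s
    refine O_loc hc (ℓ := s.length) (fun u hu => ?_) (fun _ _ => rfl) le_rfl
    match u with
    | [] => rfl
    | false :: v => rfl
    | true :: v =>
      rw [List.length_cons] at hu
      exact hf₁ v (by omega)
  | true :: s =>
    rw [List.length_cons] at hq'
    show tbl f₂ s = T₂ s
    exact hf₂ s (by omega)

end Pool.Agent.J6H49.IP
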