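import Pool.Agent.J6H49.IP.Window
import Pool.Agent.J6H49.BI.Corr
import Pool.Agent.H628R3.RO.M2

/-!
# The events in the space of the random oracles
-/

set_option autoImplicit false

namespace Pool.Agent.J6H49.IP

open Pool.Agent.NPC Pool.Agent.H628R3.RO Pool.Agent.J6H49.AM Filter Pool.Agent.J6H49.OP
open MeasureTheory
open Pool.Agent.TH678.GC (join)
open Pool.Agent.TH678.RS (bt)
open Pool.Agent.Y626.WX (Cp)
open Pool.Agent.J6H49.PHC (oracle)
open Pool.Agent.J6H7.RO (ovw ovw_pos ovw_off)
open Pool.Agent.J6H49.BI (fair)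

theorem coin_fair : Pool.Agent.J6H7.RO.coin fair = coin := by
  unfold Pool.Agent.J6H7.RO.coin coin
  have h1 : ENNReal.ofReal ((fair : unitInterval) : ℝ) = 2⁻¹ := by
    show ENNReal.ofReal (1 / 2) = 2⁻¹
    rw [one_div, ENNReal.ofReal_inv_of_pos (by norm_num)]
    norm_num
  have h2 : ENNReal.ofReal (1 - ((fair : unitInterval) : ℝ)) = 2⁻¹ := by
    have h3 : (1 : ℝ) - ((fair : unitInterval) : ℝ) = 1 / 2 := by
      show (1 : ℝ) - 1 / 2 = 1 / 2
      norm_num
    rw [h3, one_div, ENNReal.ofReal_inv_of_pos (by norm_num)]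
    norm_num
  rw [h1, h2]

theorem ro_eq : Pool.Agent.J6H7.RO.randomOracle (fun _ => fair) = randomOracle := by
  unfold Pool.Agent.J6H7.RO.randomOracle randomOracle
  simp only [coin_fair]

theorem prob_le_of_count {I : Type} [Fintype I] [DecidableEq I] {ps : I → List Bool}
    (hps : Function.Injective ps) {Z : Set Oracle} (hZ : MeasurableSet Z) {ε : ℝ}
    (h : ∀ A, (cnt (fun ω : I → Bool => ovw ps ω A ∈ Z) : ℝ) ≤ 2 ^ Fintype.card I * ε) :
    prob Z ≤ ε := by
  classical
  have h1 := Pool.Agent.J6H49.BI.prob_le_of_ovw2 (q := fair) hps hZ hZ (κ := 0) (ε := ε)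
    (fun A => by
      have h2 := h A
      rw [cnt_cast] at h2
      unfold H568R2.Ex
      have h3 : ∀ ω : I → Bool, (∏ i, Pool.Agent.H591R3.PHG.ber ((fair : unitInterval) : ℝ) (ω i)) =
          (1 / 2) ^ Fintype.card I := by
        intro ω
        have h4 : ∀ b, Pool.Agent.H591R3.PHG.ber ((fair : unitInterval) : ℝ) b = 1 / 2 := by
          intro b
          unfold Pool.Agent.H591R3.PHG.ber
          show (if b = true then (1 / 2 : ℝ) else 1 - 1 / 2) = 1 / 2
          split_ifs <;> norm_num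
        simp only [h4, Finset.prod_const, Finset.card_univ]
      simp only [h3]
      rw [← Finset.mul_sum, zero_mul, zero_add]
      have h5 : (0 : ℝ) < (1 / 2) ^ Fintype.card I := by positivity
      have h6 : ((1 : ℝ) / 2) ^ Fintype.card I * 2 ^ Fintype.card I = 1 := by
        rw [← mul_pow]
        norm_num
      calc (1 / 2 : ℝ) ^ Fintype.card I * ∑ ω : I → Bool, (if ovw ps ω A ∈ Z then (1 : ℝ) else 0) ≤
          (1 / 2 : ℝ) ^ Fintype.card I * (2 ^ Fintype.card I * ε) :=
            mul_le_mul_of_nonneg_left h2 h5.le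
        _ = ((1 / 2 : ℝ) ^ Fintype.card I * 2 ^ Fintype.card I) * ε := by ring
        _ = ε := by rw [h6, one_mul])
  rw [zero_mul, zero_add] at h1
  have h2 : prob Z = Pool.Agent.J6H7.RO.prob (fun _ => fair) Z := by
    unfold prob Pool.Agent.J6H7.RO.prob
    rw [ro_eq]
  rw [h2]
  exact h1

/-- tables for a side oracle -/
abbrev Tb (Λ D : ℕ) : Type := Fin D → {x : List Bool // x ∈ (strs (Λ + 1)).toFinset}

open Classical in
/-- the side oracle -/
noncomputable def tbl {Λ D : ℕ} (f : Tb Λ D) : Oracle := fun s => decide (∃ i, (f i).1 = s)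

theorem card_Tb (Λ D : ℕ) : Fintype.card (Tb Λ D) ≤ (2 ^ (Λ + 2)) ^ D := by
  rw [Fintype.card_fun, Fintype.card_fin, Fintype.card_coe]
  exact Nat.pow_le_pow_left (card_strs (Λ + 1)) D

theorem exists_tbl {T : Oracle} {Λ D : ℕ}
    (h : ({x : List Bool | x.length ≤ Λ ∧ T x = true}).ncard ≤ D) :
    ∃ f : Tb Λ D, ∀ s : List Bool, s.length ≤ Λ → tbl f s = T s := by
  classical
  set E := (strs Λ).toFinset.filter fun x => T x = true with hE
  have h1 : ({x : List Bool | x.length ≤ Λ ∧ T x = true}) = (E : Set (List Bool)) := by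
    ext x
    simp [hE, mem_strs]
  rw [h1, Set.ncard_coe_finset] at h
  set l := E.toList with hl
  have hlen : l.length ≤ D := by rw [hl, Finset.length_toList]; exact h
  have hmem : ∀ x ∈ l, x ∈ (strs (Λ + 1)).toFinset := by
    intro x hx
    rw [hl, Finset.mem_toList, hE, Finset.mem_filter, List.mem_toFinset, mem_strs] at hx
    rw [List.mem_toFinset, mem_strs]
    omega
  refine ⟨fun i => if hi : i.1 < l.length then ⟨l[i.1], hmem _ (List.getElem_mem hi)⟩ else
    ⟨List.replicate (Λ + 1) false, by rw [List.mem_toFinset, mem_strs]; simp⟩, fun s hs => ?_⟩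
  have h2 : T s = true ↔ s ∈ l := by
    rw [hl, Finset.mem_toList, hE, Finset.mem_filter, List.mem_toFinset, mem_strs]
    exact ⟨fun h => ⟨hs, h⟩, fun h => h.2⟩
  rw [Bool.eq_iff_iff, h2]
  unfold tbl
  rw [decide_eq_true_eq]
  constructor
  · rintro ⟨i, hi⟩
    by_cases h3 : i.1 < l.length
    · have h5 : l[i.1] = s := by
        simpa only [h3, dite_true] using hi
      rw [← h5]
      exact List.getElem_mem h3
    · exfalso
      have h5 : List.replicate (Λ + 1) false = s := by
        simpa only [h3, dite_false] using hi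
      have h4 : s.length = Λ + 1 := by rw [← h5]; simp
      omega
  · intro h3
    obtain ⟨j, hj, h4⟩ := List.getElem_of_mem h3
    refine ⟨⟨j, by omega⟩, ?_⟩
    simpa only [hj, dite_true] using h4

theorem correct_congr {M : Alg} {p : Polynomial ℕ} {B B' : Oracle} {L L' : Set (List Bool)}
    {x : List Bool} (hL : x ∈ L ↔ x ∈ L')
    (h : ∀ q : List Bool, q.length ≤ (lb M).eval (il x.length (p.eval x.length)) → B' q = B q) :
    CorrectAt (val M B') p L' x ↔ CorrectAt (val M B) p L x := by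
  have key : ∀ P, (pr (p.eval x.length) fun w => Accepts (val M B') P (p.eval x.length) x w) =
      pr (p.eval x.length) fun w => Accepts (val M B) P (p.eval x.length) x w := by
    intro P
    refine pr_congr fun v => ?_
    refine tq_acc M P _ _ _ fun q hq => h q ?_
    exact tq_length M B P rfl (by rw [List.length_ofFn]) _ le_rfl q hq
  unfold CorrectAt
  simp only [key, hL]

variable {α : ℕ → ℕ} {g : ℕ → Pool.Agent.H620R2.Gauge.SAlg × Polynomial ℕ}
  {S : ℕ → Polynomial ℕ} {Φ : Oracle → Oracle}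

/-- the verifier with the oracle `T` at its side is correct for the length `n` -/
def Good (Φ : Oracle → Oracle) (C T : Oracle) (M : Alg) (p : Polynomial ℕ) (n : ℕ) (A : Oracle) :
    Prop :=
  ∀ x : List Bool, x.length = n → CorrectAt (val M (join (oracle Φ C A) T)) p (HL A)ᶜ x

theorem HL_congr {A A' : Oracle} {x : List Bool}
    (h : ∀ u : List Bool, u.length ≤ 3 * x.length + 2 → A u = A' u) : x ∈ HL A ↔ x ∈ HL A' := by
  unfold HL
  refine exists_congr fun y => and_congr_right fun hy => ?_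
  unfold Hit
  refine forall_congr' fun i => forall_congr' fun hi => ?_
  rw [h]
  rw [length_pos, List.length_append, hy]
  simp only
  omega

theorem loc_good (hc : Cp g S (bt α) Φ) (C T : Oracle) (M : Alg) (p : Polynomial ℕ) (n : ℕ) :
    Loc {x | x.length ≤ 3 * n + 2 + (lb M).eval (il n (p.eval n))}
      {A | Good Φ C T M p n A} := by
  intro A A' h
  have h' : ∀ u : List Bool, u.length ≤ 3 * n + 2 + (lb M).eval (il n (p.eval n)) →
      A u = A' u := fun u hu => h u hu
  refine forall_congr' fun x => forall_congr' fun hx => ?_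
  refine (correct_congr (M := M) (p := p) ?_ fun q hq => ?_).symm
  · exact not_congr (HL_congr fun u hu => h' u (by omega))
  · match q with
    | [] => rfl
    | true :: s => rfl
    | false :: s =>
      show oracle Φ C A' s = oracle Φ C A s
      refine O_loc hc (ℓ := s.length) (fun _ _ => rfl) (fun u hu => (h' u ?_).symm) le_rfl
      rw [List.length_cons, hx] at hq
      omega

theorem meas_good (hc : Cp g S (bt α) Φ) (C T : Oracle) (M : Alg) (p : Polynomial ℕ) (n : ℕ) :
    MeasurableSet {A | Good Φ C T M p n A} :=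
  measurableSet_of_loc (finite_length_le _) (loc_good hc C T M p n)

theorem cnt_exists {F Ω : Type} [Fintype F] [Fintype Ω] (E : F → Ω → Prop) :
    cnt (fun ω => ∃ f, E f ω) ≤ ∑ f, cnt (E f) := by
  classical
  simp only [cnt_eq]
  refine (Finset.card_le_card ?_).trans (Finset.card_biUnion_le (s := Finset.univ)
    (t := fun f => Finset.univ.filter (E f)))
  intro ω hω
  rw [Finset.mem_filter] at hω
  obtain ⟨-, f, hf⟩ := hω
  exact Finset.mem_biUnion.2 ⟨f, Finset.mem_univ _, Finset.mem_filter.2 ⟨Finset.mem_univ _, hf⟩⟩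

/-- some side table makes the verifier correct for the length `n` -/
def Ev (Φ : Oracle → Oracle) (C : Oracle) (M : Alg) (p : Polynomial ℕ) (n Λ D : ℕ) :
    Set Oracle :=
  {A | ∃ f : Tb Λ D, Good Φ C (tbl f) M p n A}

theorem meas_Ev (hc : Cp g S (bt α) Φ) (C : Oracle) (M : Alg) (p : Polynomial ℕ) (n Λ D : ℕ) :
    MeasurableSet (Ev Φ C M p n Λ D) := by
  have : Ev Φ C M p n Λ D = ⋃ f : Tb Λ D, {A | Good Φ C (tbl f) M p n A} := by
    ext A
    simp [Ev]
  rw [this]
  exact MeasurableSet.iUnion fun f => meas_good hc C _ M p n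

theorem prob_Ev (hc : Cp g S (bt α) Φ) (C : Oracle) (M : Alg) (p : Polynomial ℕ)
    {n Λ D : ℕ} (hn : 1 ≤ n) (hl : (lb M).eval (il n (p.eval n)) ≤ lam α n)
    (hr : 18 * rq M p n ≤ 2 ^ n) :
    prob (Ev Φ C M p n Λ D) ≤ (2 ^ (Λ + 2)) ^ D * eps M p n := by
  refine prob_le_of_count (wp_inj n) (meas_Ev hc C M p n Λ D) fun A => ?_
  have heps : 0 ≤ eps M p n := by
    unfold eps
    positivity
  have h1 : (cnt (fun ω : Ix n → Bool => ovw wp ω A ∈ Ev Φ C M p n Λ D) : ℝ) ≤
      ∑ f : Tb Λ D, (cnt (fun ω : Ix n → Bool => Good Φ C (tbl f) M p n (ovw wp ω A)) : ℝ) := by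
    exact_mod_cast cnt_exists (fun (f : Tb Λ D) (ω : Ix n → Bool) =>
      Good Φ C (tbl f) M p n (ovw wp ω A))
  refine h1.trans ((Finset.sum_le_sum fun f _ =>
    few_correct hc C A (tbl f) M p hn hl hr).trans ?_)
  rw [Finset.sum_const, Finset.card_univ, nsmul_eq_mul]
  have h2 : (Fintype.card (Tb Λ D) : ℝ) ≤ (2 ^ (Λ + 2)) ^ D := by exact_mod_cast card_Tb Λ D
  calc (Fintype.card (Tb Λ D) : ℝ) * (2 ^ Fintype.card (Ix n) * eps M p n) ≤
      (2 ^ (Λ + 2)) ^ D * (2 ^ Fintype.card (Ix n) * eps M p n) :=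
        mul_le_mul_of_nonneg_right h2 (mul_nonneg (by positivity) heps)
    _ = _ := by ring

end Pool.Agent.J6H49.IP
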