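import Pool.Agent.J6H49.IP.Defs
import Pool.Agent.H628R3.RO.A1

/-!
# The questions asked during a conversation
-/

set_option autoImplicit false

namespace Pool.Agent.J6H49.IP

open Pool.Agent.NPC Pool.Agent.H628R3.RO Pool.Agent.J6H49.AM Filter

open Classical in
/-- the questions of an oracle algorithm -/
noncomputable def qrun (M : Alg) (A : Oracle) (x : List Bool) : ℕ → List Bool → Finset (List Bool)
  | 0, _ => ∅
  | n + 1, a =>
    match M.D (pairBits x a) with
    | [] => ∅
    | true :: _ => ∅
    | false :: q => insert q (qrun M A x n (a ++ [A q]))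

theorem qrun_card (M : Alg) (A : Oracle) (x : List Bool) : ∀ (n : ℕ) (a : List Bool),
    (qrun M A x n a).card ≤ n := by
  intro n
  induction n with
  | zero => intro a; simp [qrun]
  | succ n ih =>
    intro a
    rcases hq : M.D (pairBits x a) with _ | ⟨c, q⟩
    · simp [qrun, hq]
    · cases c with
      | true => simp [qrun, hq]
      | false =>
        simp only [qrun, hq]
        exact (Finset.card_insert_le _ _).trans (by
          have := ih (a ++ [A q])
          omega)

theorem qrun_stab (M : Alg) {A A' : Oracle} (x : List Bool) : ∀ (n : ℕ) (a : List Bool),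
    (∀ q ∈ qrun M A x n a, A' q = A q) →
      qrun M A' x n a = qrun M A x n a ∧ M.run A' x n a = M.run A x n a := by
  intro n
  induction n with
  | zero => intro a _; exact ⟨rfl, rfl⟩
  | succ n ih =>
    intro a h
    rcases hq : M.D (pairBits x a) with _ | ⟨c, q⟩
    · simp [qrun, Alg.run, hq]
    · cases c with
      | true => simp [qrun, Alg.run, hq]
      | false =>
        simp only [qrun, hq] at h
        have h1 := h q (Finset.mem_insert_self _ _)
        obtain ⟨h2, h3⟩ := ih (a ++ [A q]) fun r hr => h r (Finset.mem_insert_of_mem hr)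
        simp only [qrun, Alg.run, hq, h1]
        exact ⟨by rw [h2], h3⟩

/-- all questions on input `x` -/
noncomputable def qs (M : Alg) (A : Oracle) (x : List Bool) : Finset (List Bool) :=
  qrun M A x (M.p.eval x.length) []

/-- bound for the lengths of the questions -/
noncomputable def lb (M : Alg) : Polynomial ℕ := M.next_length.choose

theorem qs_length (M : Alg) (A : Oracle) (x : List Bool) :
    ∀ q ∈ qs M A x, q.length ≤ (lb M).eval x.length := by
  have key : ∀ (n : ℕ) (a : List Bool), a.length + n ≤ M.p.eval x.length →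
      ∀ q ∈ qrun M A x n a, q.length ≤ (lb M).eval x.length := by
    intro n
    induction n with
    | zero => intro a _ q hq; simp [qrun] at hq
    | succ n ih =>
      intro a ha q hq
      have hD := M.next_length.choose_spec x a (by omega)
      rcases h : M.D (pairBits x a) with _ | ⟨c, q'⟩
      · simp [qrun, h] at hq
      · cases c with
        | true => simp [qrun, h] at hq
        | false =>
          simp only [qrun, h, Finset.mem_insert] at hq
          rcases hq with rfl | hq
          · rw [h, List.length_cons] at hD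
            exact Nat.le_of_succ_le hD
          · exact ih (a ++ [A q']) (by
              rw [List.length_append, List.length_singleton]; omega) q hq
  exact key _ [] (by simp)

/-- the output (the empty string, if there is none) -/
def val (M : Alg) (A : Oracle) (x : List Bool) : List Bool := (M.out A x).getD []

theorem qs_stab (M : Alg) {A A' : Oracle} (x : List Bool) (h : ∀ q ∈ qs M A x, A' q = A q) :
    qs M A' x = qs M A x ∧ val M A' x = val M A x := by
  obtain ⟨h1, h2⟩ := qrun_stab M x _ _ h
  refine ⟨h1, ?_⟩
  unfold val Alg.out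
  rw [h2]

theorem val_eq {M : Alg} {A : Oracle} {V : List Bool → List Bool}
    (h : ∀ x, M.out A x = some (V x)) : val M A = V := by
  funext x
  unfold val
  rw [h]
  rfl

open Classical in
/-- the questions in the first `k` rounds -/
noncomputable def tq (M : Alg) (A : Oracle) (P : List (List Bool) → List Bool) (ℓ : ℕ)
    (x w : List Bool) : ℕ → Finset (List Bool)
  | 0 => ∅
  | k + 1 => tq M A P ℓ x w k ∪
      qs M A (pairBits x (pairBits w (talk (val M A) P ℓ x w k).2))

theorem tq_stab (M : Alg) {A A' : Oracle} (P : List (List Bool) → List Bool) (ℓ : ℕ)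
    (x w : List Bool) : ∀ k : ℕ, (∀ q ∈ tq M A P ℓ x w k, A' q = A q) →
      tq M A' P ℓ x w k = tq M A P ℓ x w k ∧
      talk (val M A') P ℓ x w k = talk (val M A) P ℓ x w k := by
  classical
  intro k
  induction k with
  | zero => intro _; exact ⟨rfl, rfl⟩
  | succ k ih =>
    intro h
    simp only [tq, Finset.mem_union] at h
    obtain ⟨h1, h2⟩ := ih fun q hq => h q (Or.inl hq)
    obtain ⟨h3, h4⟩ := qs_stab M (A := A) (A' := A')
      (pairBits x (pairBits w (talk (val M A) P ℓ x w k).2)) fun q hq => h q (Or.inr hq)
    constructor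
    · simp only [tq, h1, h2, h3]
    · simp only [talk, h2, h4]

theorem tq_acc (M : Alg) {A A' : Oracle} (P : List (List Bool) → List Bool) (ℓ : ℕ)
    (x w : List Bool) (h : ∀ q ∈ tq M A P ℓ x w (ℓ + 1), A' q = A q) :
    Accepts (val M A') P ℓ x w ↔ Accepts (val M A) P ℓ x w := by
  classical
  simp only [tq, Finset.mem_union] at h
  obtain ⟨h1, h2⟩ := tq_stab M (A := A) (A' := A') P ℓ x w ℓ fun q hq => h q (Or.inl hq)
  obtain ⟨h3, h4⟩ := qs_stab M (A := A) (A' := A')
    (pairBits x (pairBits w (talk (val M A) P ℓ x w ℓ).2)) fun q hq => h q (Or.inr hq)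
  unfold Accepts
  rw [h2, h4]

theorem talk_length (V : List Bool → List Bool) (P : List (List Bool) → List Bool) (ℓ : ℕ)
    (x w : List Bool) (k : ℕ) : (talk V P ℓ x w k).2.length ≤ k * (2 * ℓ + 1) := by
  induction k with
  | zero => simp [talk]
  | succ k ih =>
    simp only [talk]
    rw [length_pairBits]
    have : ((P (V (pairBits x (pairBits w (talk V P ℓ x w k).2)) ::
        (talk V P ℓ x w k).1)).take ℓ).length ≤ ℓ := List.length_take_le _ _
    have e : (k + 1) * (2 * ℓ + 1) = k * (2 * ℓ + 1) + (2 * ℓ + 1) := by ring
    omega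

/-- the length of the inputs of the verifier -/
def il (n ℓ : ℕ) : ℕ := 2 * n + 1 + (2 * ℓ + 1 + ℓ * (2 * ℓ + 1))

theorem input_length (V : List Bool → List Bool) (P : List (List Bool) → List Bool) {ℓ n : ℕ}
    {x w : List Bool} (hx : x.length = n) (hw : w.length = ℓ) {k : ℕ} (hk : k ≤ ℓ) :
    (pairBits x (pairBits w (talk V P ℓ x w k).2)).length ≤ il n ℓ := by
  rw [length_pairBits, length_pairBits, hx, hw]
  have h1 := talk_length V P ℓ x w k
  have h2 : k * (2 * ℓ + 1) ≤ ℓ * (2 * ℓ + 1) := Nat.mul_le_mul_right _ hk
  unfold il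
  omega

theorem tq_card (M : Alg) (A : Oracle) (P : List (List Bool) → List Bool) {ℓ n : ℕ}
    {x w : List Bool} (hx : x.length = n) (hw : w.length = ℓ) : ∀ k ≤ ℓ + 1,
      (tq M A P ℓ x w k).card ≤ k * M.p.eval (il n ℓ) := by
  classical
  intro k
  induction k with
  | zero => intro _; simp [tq]
  | succ k ih =>
    intro hk
    simp only [tq]
    refine (Finset.card_union_le _ _).trans ?_
    have h1 := ih (by omega)
    have h2 : (qs M A (pairBits x (pairBits w (talk (val M A) P ℓ x w k).2))).card ≤
        M.p.eval (il n ℓ) :=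
      (qrun_card M A _ _ _).trans (eval_mono _ (input_length _ P hx hw (by omega)))
    have e : (k + 1) * M.p.eval (il n ℓ) = k * M.p.eval (il n ℓ) + M.p.eval (il n ℓ) := by ring
    omega

theorem tq_length (M : Alg) (A : Oracle) (P : List (List Bool) → List Bool) {ℓ n : ℕ}
    {x w : List Bool} (hx : x.length = n) (hw : w.length = ℓ) : ∀ k ≤ ℓ + 1,
      ∀ q ∈ tq M A P ℓ x w k, q.length ≤ (lb M).eval (il n ℓ) := by
  classical
  intro k
  induction k with
  | zero => intro _ q hq; simp [tq] at hq
  | succ k ih =>
    intro hk q hq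
    simp only [tq, Finset.mem_union] at hq
    rcases hq with hq | hq
    · exact ih (by omega) q hq
    · exact (qs_length M A _ q hq).trans (eval_mono _ (input_length _ P hx hw (by omega)))

end Pool.Agent.J6H49.IP
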