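import Pool.Agent.J6H49.IP.Run
import Pool.Agent.J6H49.IP.Count
import Pool.Agent.J6H49.AM.Fool
import Pool.Agent.J6H49.OP.Late
import Pool.Agent.J6H7.RO.Meas
import Pool.Agent.H628R3.RO.M4
import Pool.Agent.H628R3.RO.G1

/-!
# The window number `n`
-/

set_option autoImplicit false

namespace Pool.Agent.J6H49.IP

open Pool.Agent.NPC Pool.Agent.H628R3.RO Pool.Agent.J6H49.AM Filter Pool.Agent.J6H49.OP
open Pool.Agent.TH678.GC (join)
open Pool.Agent.TH678.RS (bt)
open Pool.Agent.Y626.WX (Cp)
open Pool.Agent.J6H49.PHC (oracle)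
open Pool.Agent.J6H7.RO (ovw ovw_pos ovw_off)

/-- the strings `x` such that some string `y` of the same length is a hit for `x` -/
def HL (A : Oracle) : Set (List Bool) :=
  {x | ∃ y : List Bool, y.length = x.length ∧ Hit x.length (0, x ++ y) A}

theorem isNP_HL (A : Oracle) : IsNP A (HL A) := by
  refine isNP_of_tt A _
    (Q := fun p => asks p.1.length 0 (p.1 ++ p.2))
    (T := fun p => decide (p.1.2.length = p.1.1.length) && p.2.all id) ?_ ?_
    Polynomial.X fun x => ?_
  · exact p_asks (UPoly.length (Poly.fst Poly.id)) (UPoly.const 0)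
      (Poly.append (Poly.fst Poly.id) (Poly.snd Poly.id))
  · have h1 : Poly (fun p : (List Bool × List Bool) × List Bool => p.1.1) :=
      Poly.fst (Poly.fst Poly.id)
    have h2 : Poly (fun p : (List Bool × List Bool) × List Bool => p.1.2) :=
      Poly.snd (Poly.fst Poly.id)
    exact Poly.and (Poly.decide_eq (Poly.length h2) (Poly.length h1)) (p_all_id (Poly.snd Poly.id))
  · unfold HL
    simp only [Set.mem_ofPred_eq, Polynomial.eval_X, Bool.and_eq_true, decide_eq_true_eq,
      asks_all]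
    refine exists_congr fun y => ⟨fun h => ⟨h.1.le, h⟩, fun h => h.2⟩

/-- the indices of the bits of the window -/
abbrev Ix (n : ℕ) : Type := (Blk n × Blk n) × Fin n

/-- the positions of the bits of the window -/
def wp {n : ℕ} (i : Ix n) : List Bool := pos 0 i.2 (str2 i.1.1 i.1.2)

theorem wp_inj (n : ℕ) : Function.Injective (wp (n := n)) := by
  rintro ⟨⟨u, y⟩, i⟩ ⟨⟨u', y'⟩, i'⟩ h
  unfold wp at h
  obtain ⟨-, h1, h2⟩ := pos_inj h
  obtain ⟨rfl, rfl⟩ := str2_inj h2
  have h3 : i = i' := Fin.ext h1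
  rw [h3]

theorem length_wp {n : ℕ} (i : Ix n) : n < (wp i).length := by
  unfold wp
  rw [length_pos, length_str2]
  omega

/-- a table as a family of bits -/
def unc (n : ℕ) : (Blk n → Blk n → Blk n) ≃ (Ix n → Bool) where
  toFun z := fun i => z i.1.1 i.1.2 i.2
  invFun ω := fun u y i => ω ((u, y), i)
  left_inv := fun _ => rfl
  right_inv := fun _ => rfl

/-- the oracle with the window given by the table -/
noncomputable def Wn (n : ℕ) (z : Blk n → Blk n → Blk n) (A : Oracle) : Oracle :=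
  ovw wp (unc n z) A

theorem Wn_wp {n : ℕ} (z : Blk n → Blk n → Blk n) (A : Oracle) (i : Ix n) :
    Wn n z A (wp i) = z i.1.1 i.1.2 i.2 := by
  unfold Wn
  rw [ovw_pos (wp_inj n)]
  rfl

theorem Wn_off {n : ℕ} (z : Blk n → Blk n → Blk n) (A : Oracle) {x : List Bool}
    (hx : ∀ i : Ix n, wp i ≠ x) : Wn n z A x = A x := ovw_off _ A hx

theorem Wn_short {n : ℕ} (z : Blk n → Blk n → Blk n) (A : Oracle) {x : List Bool}
    (hx : x.length ≤ n) : Wn n z A x = A x := by
  refine Wn_off z A fun i h => ?_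
  have := length_wp i
  rw [h] at this
  omega

/-- all ones -/
def top (n : ℕ) : Blk n := fun _ => true

theorem mem_HL_Wn {n : ℕ} (z : Blk n → Blk n → Blk n) (A : Oracle) (u : Blk n) :
    List.ofFn u ∈ HL (Wn n z A) ↔ hit (top n) (z u) := by
  unfold HL hit
  rw [Set.mem_ofPred_eq, List.length_ofFn]
  have key : ∀ y : Blk n, Hit n (0, List.ofFn u ++ List.ofFn y) (Wn n z A) ↔ z u y = top n := by
    intro y
    unfold Hit
    constructor
    · intro h
      funext i
      have h1 := h i.1 i.2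
      have h2 : pos 0 i.1 (List.ofFn u ++ List.ofFn y) = wp ((u, y), i) := rfl
      rw [h2, Wn_wp] at h1
      exact h1
    · intro h i hi
      have h2 : pos 0 i (List.ofFn u ++ List.ofFn y) = wp ((u, y), ⟨i, hi⟩) := rfl
      show Wn n z A (pos 0 i (List.ofFn u ++ List.ofFn y)) = true
      rw [h2, Wn_wp]
      show z u y ⟨i, hi⟩ = true
      rw [h]
      rfl
  constructor
  · rintro ⟨y, hy, h⟩
    have h1 : y = List.ofFn (fun i : Fin n => y[i.1]'(by omega)) := by
      apply List.ext_getElem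
      · rw [List.length_ofFn, hy]
      · intro i h3 h4
        rw [List.getElem_ofFn]
    rw [h1] at h
    exact ⟨_, (key _).1 h⟩
  · rintro ⟨y, h⟩
    exact ⟨List.ofFn y, by rw [List.length_ofFn], (key y).2 h⟩

variable {α : ℕ → ℕ} {g : ℕ → Pool.Agent.H620R2.Gauge.SAlg × Polynomial ℕ}
  {S : ℕ → Polynomial ℕ} {Φ : Oracle → Oracle}

/-- the game -/
noncomputable def mkGame (hc : Cp g S (bt α) Φ) (C A T : Oracle) (M : Alg) (p : Polynomial ℕ)
    {n : ℕ} (hn : 1 ≤ n) (hl : (lb M).eval (il n (p.eval n)) ≤ lam α n) :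
    Game (Blk n) (Blk n) (Blk n) (List (List Bool) → List Bool) (Blk (p.eval n)) := by
  classical
  exact
  { acc := fun v z P ω => Accepts (val M (join (oracle Φ C (Wn n z A)) T)) P (p.eval n)
      (List.ofFn v) (List.ofFn ω)
    Q := fun v z P ω => Finset.univ.filter fun uy : Blk n × Blk n => ∃ i : Fin n,
      (false :: ([false, false] ++ wp (uy, i))) ∈ tq M (join (oracle Φ C (Wn n z A)) T) P
        (p.eval n) (List.ofFn v) (List.ofFn ω) (p.eval n + 1)
    stab := by
      intro v z z' P ω h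
      have h1 : ∀ q ∈ tq M (join (oracle Φ C (Wn n z A)) T) P
          (p.eval n) (List.ofFn v) (List.ofFn ω) (p.eval n + 1),
          join (oracle Φ C (Wn n z' A)) T q = join (oracle Φ C (Wn n z A)) T q := by
        intro q hq
        have hlen := (tq_length M (join (oracle Φ C (Wn n z A)) T) P (ℓ := p.eval n) (n := n)
          (x := List.ofFn v) (w := List.ofFn ω) (by rw [List.length_ofFn])
          (by rw [List.length_ofFn]) _ le_rfl q hq).trans hl
        match q with
        | [] => rfl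
        | true :: s => rfl
        | false :: s =>
          show oracle Φ C (Wn n z' A) s = oracle Φ C (Wn n z A) s
          by_cases hpre : ∃ x, s = [false, false] ++ x
          · obtain ⟨x, rfl⟩ := hpre
            rw [O_pre, O_pre]
            by_cases hx : ∃ i : Ix n, wp i = x
            · obtain ⟨i, rfl⟩ := hx
              rw [Wn_wp, Wn_wp]
              have h2 := h i.1 (Finset.mem_filter.2 ⟨Finset.mem_univ _, i.2, hq⟩)
              rw [h2]
            · push Not at hx
              rw [Wn_off z' A hx, Wn_off z A hx]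
          · push Not at hpre
            refine O_late hc hn C (fun u hu => ?_) ?_ hpre
            · rw [Wn_short z' A hu, Wn_short z A hu]
            · rw [List.length_cons] at hlen
              omega
      obtain ⟨h2, -⟩ := tq_stab M P (p.eval n) (List.ofFn v) (List.ofFn ω) _ h1
      exact ⟨by simp only [h2], tq_acc M P (p.eval n) (List.ofFn v) (List.ofFn ω) h1⟩ }

/-- the number of questions -/
noncomputable def rq (M : Alg) (p : Polynomial ℕ) (n : ℕ) : ℕ :=
  (p.eval n + 1) * M.p.eval (il n (p.eval n))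

theorem mkGame_card (hc : Cp g S (bt α) Φ) (C A T : Oracle) (M : Alg) (p : Polynomial ℕ)
    {n : ℕ} (hn : 1 ≤ n) (hl : (lb M).eval (il n (p.eval n)) ≤ lam α n) (v : Blk n)
    (z : Blk n → Blk n → Blk n) (P : List (List Bool) → List Bool) (ω : Blk (p.eval n)) :
    ((mkGame hc C A T M p hn hl).Q v z P ω).card ≤ rq M p n := by
  classical
  have h1 := tq_card M (join (oracle Φ C (Wn n z A)) T) P (ℓ := p.eval n) (n := n)
    (x := List.ofFn v) (w := List.ofFn ω) (by rw [List.length_ofFn])
    (by rw [List.length_ofFn]) _ le_rfl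
  refine le_trans ?_ h1
  have h2 : ∀ uy ∈ (mkGame hc C A T M p hn hl).Q v z P ω, ∃ i : Fin n,
      (false :: ([false, false] ++ wp (uy, i))) ∈ tq M (join (oracle Φ C (Wn n z A)) T) P
        (p.eval n) (List.ofFn v) (List.ofFn ω) (p.eval n + 1) := by
    intro uy h
    exact (Finset.mem_filter.1 h).2
  have : Nonempty (Fin n) := ⟨⟨0, by omega⟩⟩
  choose! i hi using h2
  refine Finset.card_le_card_of_injOn (fun uy => false :: ([false, false] ++ wp (uy, i uy)))
    (fun uy h => hi uy h) ?_
  intro uy _ uy' _ h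
  have h3 : wp (uy, i uy) = wp (uy', i uy') := by
    simpa using h
  exact (Prod.ext_iff.1 (wp_inj n h3)).1

theorem pr_cnt (m : ℕ) (E : List Bool → Prop) :
    pr m E = (cnt (fun v : Blk m => E (List.ofFn v)) : ℝ) / 2 ^ m := rfl

theorem card_Blk (m : ℕ) : Fintype.card (Blk m) = 2 ^ m := by
  rw [Fintype.card_fun, Fintype.card_bool, Fintype.card_fin]

theorem cor_of (hc : Cp g S (bt α) Φ) (C A T : Oracle) (M : Alg) (p : Polynomial ℕ)
    {n : ℕ} (hn : 1 ≤ n) (hl : (lb M).eval (il n (p.eval n)) ≤ lam α n)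
    (z : Blk n → Blk n → Blk n)
    (h : ∀ x : List Bool, x.length = n →
      CorrectAt (val M (join (oracle Φ C (Wn n z A)) T)) p (HL (Wn n z A))ᶜ x) :
    Cor (mkGame hc C A T M p hn hl) (top n) z := by
  intro v
  obtain ⟨h1, h2⟩ := h (List.ofFn v) (by rw [List.length_ofFn])
  simp only [List.length_ofFn, Set.mem_compl_iff, mem_HL_Wn, pr_cnt] at h1 h2
  have hpos : (0 : ℝ) < 2 ^ p.eval n := by positivity
  constructor
  · intro h3
    obtain ⟨P, hP⟩ := h1 h3
    refine ⟨P, ?_⟩
    rw [card_Blk]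
    rw [le_div_iff₀ hpos] at hP
    have h4 : (2 : ℝ) * 2 ^ p.eval n ≤ 3 * (cnt (fun ω : Blk (p.eval n) =>
        Accepts (val M (join (oracle Φ C (Wn n z A)) T)) P (p.eval n)
          (List.ofFn v) (List.ofFn ω)) : ℝ) := by linarith
    exact_mod_cast h4
  · intro h3 P
    have hP := h2 (not_not.2 h3) P
    rw [card_Blk]
    rw [div_le_iff₀ hpos] at hP
    have h4 : 3 * (cnt (fun ω : Blk (p.eval n) =>
        Accepts (val M (join (oracle Φ C (Wn n z A)) T)) P (p.eval n)
          (List.ofFn v) (List.ofFn ω)) : ℝ) ≤ 2 ^ p.eval n := by linarith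
    exact_mod_cast h4

theorem cnt_equiv {Ω Ω' : Type} [Fintype Ω] [Fintype Ω'] (e : Ω ≃ Ω') (E : Ω' → Prop) :
    cnt (fun ω => E (e ω)) = cnt E := by
  classical
  have h1 : (cnt (fun ω => E (e ω)) : ℝ) = cnt E := by
    rw [cnt_cast, cnt_cast]
    exact Equiv.sum_comp e (fun ω => if E ω then (1 : ℝ) else 0)
  exact_mod_cast h1

theorem no_hit {n : ℕ} (hn : 1 ≤ n) : Fintype.card (Blk n → Blk n) ≤
    4 * cnt (fun x : Blk n → Blk n => ¬ hit (top n) x) := by
  classical
  have h1 : cnt (fun x : Blk n → Blk n => ¬ hit (top n) x) = (2 ^ n - 1) ^ 2 ^ n := by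
    have h2 : (fun x : Blk n → Blk n => ¬ hit (top n) x) = fun x => ∀ y, x y ≠ top n := by
      funext x
      unfold hit
      push Not
      rfl
    rw [h2, cnt_eq]
    have h3 : (Finset.univ.filter fun x : Blk n → Blk n => ∀ y, x y ≠ top n) =
        Fintype.piFinset fun _ : Blk n => Finset.univ.filter fun w : Blk n => w ≠ top n := by
      ext x
      simp [Fintype.mem_piFinset]
    rw [h3, Fintype.card_piFinset]
    have h4 : (Finset.univ.filter fun w : Blk n => w ≠ top n).card = 2 ^ n - 1 := by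
      rw [Finset.filter_ne', Finset.card_erase_of_mem (Finset.mem_univ _), Finset.card_univ,
        card_Blk]
    rw [h4, Finset.prod_const, Finset.card_univ, card_Blk]
  rw [h1, Fintype.card_fun, card_Blk]
  have h5 := sat_ge hn 1
  rw [pow_one, one_mul] at h5
  have h6 : (((2 ^ n - 1) ^ 2 ^ n : ℕ) : ℝ) = (2 ^ n) ^ 2 ^ n * (1 - (1 / 2 : ℝ) ^ n) ^ 2 ^ n := by
    rw [← mul_pow]
    push_cast [Nat.cast_sub (Nat.one_le_two_pow (n := n))]
    congr 1
    rw [mul_sub, mul_one, ← mul_pow]
    norm_num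
  have h7 : (0 : ℝ) < (2 ^ n) ^ 2 ^ n := by positivity
  have h8 : (((2 ^ n) ^ 2 ^ n : ℕ) : ℝ) ≤ ((4 * (2 ^ n - 1) ^ 2 ^ n : ℕ) : ℝ) := by
    rw [Nat.cast_mul, h6]
    push_cast
    nlinarith
  exact_mod_cast h8

/-- the bound for the probability of correctness -/
noncomputable def eps (M : Alg) (p : Polynomial ℕ) (n : ℕ) : ℝ :=
  32 * ((18 * rq M p n + 1 : ℕ) : ℝ) * (2 / 3) ^ (2 ^ n / (32 * (18 * rq M p n + 1))) +
    (3 / 4) ^ (2 ^ n / 8)

/-- For most windows the verifier is wrong somewhere. -/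
theorem few_correct (hc : Cp g S (bt α) Φ) (C A T : Oracle) (M : Alg) (p : Polynomial ℕ)
    {n : ℕ} (hn : 1 ≤ n) (hl : (lb M).eval (il n (p.eval n)) ≤ lam α n)
    (hr : 18 * rq M p n ≤ 2 ^ n) :
    (cnt (fun ω : Ix n → Bool => ∀ x : List Bool, x.length = n →
      CorrectAt (val M (join (oracle Φ C (ovw wp ω A)) T)) p (HL (ovw wp ω A))ᶜ x) : ℝ) ≤
      2 ^ Fintype.card (Ix n) * eps M p n := by
  have h1 : cnt (fun ω : Ix n → Bool => ∀ x : List Bool, x.length = n →
      CorrectAt (val M (join (oracle Φ C (ovw wp ω A)) T)) p (HL (ovw wp ω A))ᶜ x) ≤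
      cnt (fun z : Blk n → Blk n → Blk n => Cor (mkGame hc C A T M p hn hl) (top n) z) := by
    rw [← cnt_equiv (unc n)]
    exact cnt_mono fun z hz => cor_of hc C A T M p hn hl z hz
  have h2 := count_cor (mkGame hc C A T M p hn hl) (top n)
    (0 : Fin (18 * rq M p n + 1)) (r := rq M p n)
    (fun v z P ω => mkGame_card hc C A T M p hn hl v z P ω)
    (by rw [Fintype.card_fin]; omega) (by rw [card_Blk]; exact hr)
    (by rw [card_Blk]; positivity) le_rfl (no_hit hn)
  have h3 : (Fintype.card (Blk n → Blk n) : ℝ) ^ Fintype.card (Blk n) =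
      2 ^ Fintype.card (Ix n) := by
    rw [Fintype.card_fun, Fintype.card_prod, Fintype.card_prod, Fintype.card_fin, card_Blk]
    push_cast
    rw [← pow_mul, ← pow_mul]
    congr 1
    ring
  rw [h3, Fintype.card_fin, card_Blk] at h2
  refine (Nat.cast_le.2 h1).trans (h2.trans (le_of_eq ?_))
  rfl

end Pool.Agent.J6H49.IP
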